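import Pool.Agent.Lib.MP_e81270_lc_Gap.Defs
import Pool.Agent.Lib.MP_8fffab_lc_Sym.Group
import Pool.Agent.Lib.MP_8fffab_lc_SymB.Perm

/-!
# Formulas up to the order and repetition of disjuncts, and their supports
-/

set_option autoImplicit false

namespace Pool.Agent.Lib.MP_e81270_lc_Gap

open FirstOrder Equiv Equiv.Perm
open Pool.Agent.SymCirc (sp sp_conj mem_sp cls mem_cls Rel c3 c3_apply_a c3_apply_of_ne)

variable {V : Type}

lemma Same.refl (A : Fm V) : Same A A := by
  induction A with
  | var x => simp [Same]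
  | neg A ih => simpa [Same] using ih
  | or k f ih => exact ⟨fun i => ⟨i, ih i⟩, fun i => ⟨i, ih i⟩⟩

lemma Same.symm {A B : Fm V} (h : Same A B) : Same B A := by
  induction A generalizing B with
  | var x => cases B <;> simp_all [Same]
  | neg A ih =>
    cases B with
    | neg B => exact ih (B := B) h
    | var x => simp [Same] at h
    | or l g => simp [Same] at h
  | or k f ih =>
    cases B with
    | neg B => simp [Same] at h
    | var x => simp [Same] at h
    | or l g =>
      refine ⟨fun j => ?_, fun i => ?_⟩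
      · obtain ⟨i, hi⟩ := h.2 j
        exact ⟨i, ih i hi⟩
      · obtain ⟨j, hj⟩ := h.1 i
        exact ⟨j, ih i hj⟩

lemma Same.trans {A B C : Fm V} (h : Same A B) (h' : Same B C) : Same A C := by
  induction A generalizing B C with
  | var x =>
    cases B with
    | var y =>
      cases C with
      | var z => exact (show x = z from (show x = y from h).trans (show y = z from h'))
      | neg C => simp [Same] at h'
      | or l g => simp [Same] at h'
    | neg B => simp [Same] at h
    | or l g => simp [Same] at h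
  | neg A ih =>
    cases B with
    | var y => simp [Same] at h
    | or l g => simp [Same] at h
    | neg B =>
      cases C with
      | var y => simp [Same] at h'
      | or l g => simp [Same] at h'
      | neg C => exact ih (B := B) (C := C) h h'
  | or k f ih =>
    cases B with
    | var y => simp [Same] at h
    | neg B => simp [Same] at h
    | or l g =>
      cases C with
      | var y => simp [Same] at h'
      | neg C => simp [Same] at h'
      | or r e =>
        refine ⟨fun i => ?_, fun p => ?_⟩
        · obtain ⟨j, hj⟩ := h.1 i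
          obtain ⟨p, hp⟩ := h'.1 j
          exact ⟨p, ih i hj hp⟩
        · obtain ⟨j, hj⟩ := h'.2 p
          obtain ⟨i, hi⟩ := h.2 j
          exact ⟨i, ih i hi hj⟩

lemma Same.rename {W : Type} (h : V → W) {A B : Fm V} (hs : Same A B) :
    Same (A.rename h) (B.rename h) := by
  induction A generalizing B with
  | var x =>
    cases B with
    | var y => exact congrArg h (show x = y from hs)
    | neg B => simp [Same] at hs
    | or l g => simp [Same] at hs
  | neg A ih =>
    cases B with
    | neg B => exact ih (B := B) hs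
    | var x => simp [Same] at hs
    | or l g => simp [Same] at hs
  | or k f ih =>
    cases B with
    | neg B => simp [Same] at hs
    | var x => simp [Same] at hs
    | or l g =>
      refine ⟨fun i => ?_, fun j => ?_⟩
      · obtain ⟨j, hj⟩ := hs.1 i
        exact ⟨j, ih i hj⟩
      · obtain ⟨i, hi⟩ := hs.2 j
        exact ⟨i, ih i hi⟩

lemma Fm.rename_rename {W X : Type} (h : V → W) (g : W → X) (A : Fm V) :
    (A.rename h).rename g = A.rename (g ∘ h) := by
  induction A with
  | var x => rfl
  | neg A ih => simp [Fm.rename, ih]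
  | or k f ih => simp [Fm.rename, ih]

lemma Fm.rename_id (A : Fm V) : A.rename id = A := by
  induction A with
  | var x => rfl
  | neg A ih => simp [Fm.rename, ih]
  | or k f ih => simp [Fm.rename, ih]

section
variable {L : FirstOrder.Language.{0, 0}} {n : ℕ}

lemma permute_one (A : Fm (Atom L n)) : permute 1 A = A := Fm.rename_id A

lemma permute_mul (π σ : Perm (Fin n)) (A : Fm (Atom L n)) :
    permute (π * σ) A = permute π (permute σ A) := by
  rw [permute, permute, permute, Fm.rename_rename]
  rfl

lemma Same.permute {A B : Fm (Atom L n)} (π : Perm (Fin n)) (h : Same A B) :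
    Same (permute π A) (permute π B) := h.rename _

variable (Q : Finset (Fin n))

/-- the permutation of `{0, ..., n-1}` given by a permutation of `Q` -/
abbrev ext (σ : Perm {x // x ∈ Q}) : Perm (Fin n) := Perm.ofSubtype σ

/-- the permutations of `Q` which fix a formula -/
def stab (A : Fm (Atom L n)) : Subgroup (Perm {x // x ∈ Q}) where
  carrier := {π | Same (permute (ext Q π) A) A}
  one_mem' := by
    show Same (permute (ext Q 1) A) A
    rw [ext, map_one, permute_one]
    exact Same.refl A
  mul_mem' := by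
    intro π σ hπ hσ
    show Same (permute (ext Q (π * σ)) A) A
    rw [ext, map_mul, permute_mul]
    exact (Same.permute _ hσ).trans hπ
  inv_mem' := by
    intro π hπ
    show Same (permute (ext Q π⁻¹) A) A
    have h : Same (permute (ext Q π) A) A := hπ
    have := (Same.permute (ext Q π)⁻¹ h).symm
    rw [← permute_mul, inv_mul_cancel, permute_one] at this
    rwa [ext, map_inv]

lemma mem_stab {A : Fm (Atom L n)} {π : Perm {x // x ∈ Q}} :
    π ∈ stab Q A ↔ Same (permute (ext Q π) A) A := Iff.rfl

lemma stab_neg (A : Fm (Atom L n)) : stab Q (.neg A) = stab Q A := by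
  ext π
  rw [mem_stab, mem_stab]
  exact Iff.rfl

lemma stab_same {A B : Fm (Atom L n)} (h : Same A B) : stab Q A = stab Q B := by
  ext π
  rw [mem_stab, mem_stab]
  constructor
  · intro h1
    exact ((Same.permute _ h).symm.trans h1).trans h
  · intro h1
    exact ((Same.permute _ h).trans h1).trans h.symm

/-- the support of a formula: all elements outside `Q`, and the support in `Q` -/
noncomputable def supp (A : Fm (Atom L n)) : Finset (Fin n) :=
  Qᶜ ∪ (sp (stab Q A)).map (Function.Embedding.subtype _)

lemma supp_neg (A : Fm (Atom L n)) : supp Q (.neg A) = supp Q A := by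
  rw [supp, supp, stab_neg]

lemma supp_same {A B : Fm (Atom L n)} (h : Same A B) : supp Q A = supp Q B := by
  rw [supp, supp, stab_same Q h]

lemma mem_supp {A : Fm (Atom L n)} {x : Fin n} :
    x ∈ supp Q A ↔ ∀ h : x ∈ Q, (⟨x, h⟩ : {x // x ∈ Q}) ∈ sp (stab Q A) := by
  rw [supp, Finset.mem_union, Finset.mem_compl, Finset.mem_map]
  constructor
  · rintro (h | ⟨y, hy, rfl⟩) h'
    · exact absurd h' h
    · exact hy
  · intro h
    by_cases hx : x ∈ Q
    · exact Or.inr ⟨⟨x, hx⟩, h hx, rfl⟩
    · exact Or.inl hx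

lemma compl_subset_supp (A : Fm (Atom L n)) : Qᶜ ⊆ supp Q A := Finset.subset_union_left

/-- the part of the support in `Q` -/
lemma supp_inter (A : Fm (Atom L n)) : (supp Q A ∩ Q).card = (sp (stab Q A)).card := by
  have : supp Q A ∩ Q = (sp (stab Q A)).map (Function.Embedding.subtype _) := by
    ext x
    rw [Finset.mem_inter, mem_supp, Finset.mem_map]
    constructor
    · rintro ⟨h, hx⟩
      exact ⟨⟨x, hx⟩, h hx, rfl⟩
    · rintro ⟨y, hy, rfl⟩
      exact ⟨fun _ => hy, y.2⟩
  rw [this, Finset.card_map]

variable {Q}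

/-- the permutation of `Q` given by a permutation which fixes the elements outside `Q` -/
lemma exists_ext {π : Perm (Fin n)} (h : ∀ x ∉ Q, π x = x) :
    ∃ σ : Perm {x // x ∈ Q}, ext Q σ = π := by
  have h1 : ∀ x, x ∈ Q ↔ π x ∈ Q := by
    intro x
    constructor
    · intro hx
      by_contra hc
      have := h _ hc
      exact hc ((π.injective this).symm ▸ hx)
    · intro hx
      by_contra hc
      rw [h x hc] at hx
      exact hc hx
  refine ⟨π.subtypePerm (fun x => (h1 x).symm), ?_⟩
  apply Perm.ofSubtype_subtypePerm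
  intro x hx
  by_contra hc
  exact hx (h x hc)

lemma supp_permute (A : Fm (Atom L n)) {π : Perm (Fin n)} (h : ∀ x ∉ Q, π x = x) :
    supp Q (permute π A) = (supp Q A).map π.toEmbedding := by
  obtain ⟨σ, rfl⟩ := exists_ext h
  have h1 : sp (stab Q (permute (ext Q σ) A)) = (sp (stab Q A)).map σ.toEmbedding := by
    apply sp_conj
    · intro τ hτ
      rw [mem_stab] at *
      rw [ext, map_mul, map_mul, map_inv, permute_mul, permute_mul, ← permute_mul (ofSubtype σ)⁻¹,
        inv_mul_cancel, permute_one]
      exact Same.permute _ hτ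
    · intro τ hτ
      rw [mem_stab] at *
      rw [ext, map_mul, map_mul, map_inv, permute_mul, permute_mul]
      have := Same.permute (ofSubtype σ)⁻¹ hτ
      rwa [← permute_mul (ofSubtype σ)⁻¹ (ofSubtype σ), inv_mul_cancel, permute_one] at this
  ext x
  rw [Finset.mem_map_equiv, mem_supp, mem_supp, h1]
  by_cases hx : x ∈ Q
  · have e : (ext Q σ).symm x = σ.symm ⟨x, hx⟩ := by
      rw [Equiv.symm_apply_eq, ext, Perm.ofSubtype_apply_coe, Equiv.apply_symm_apply]
    rw [e]
    constructor
    · intro h2 _
      exact Finset.mem_map_equiv.1 (h2 hx)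
    · intro h2 _
      exact Finset.mem_map_equiv.2 (h2 (σ.symm ⟨x, hx⟩).2)
  · have e : (ext Q σ).symm x = x := by
      rw [Equiv.symm_apply_eq]
      exact (h x hx).symm
    rw [e]
    exact ⟨fun _ h2 => absurd h2 hx, fun _ h2 => absurd h2 hx⟩

/-- the support of a variable contains its elements -/
lemma mem_supp_var (hn : 2 ≤ Q.card) (x : Atom L n) (i : Fin x.1) :
    x.2.2 i ∈ supp Q (.var x) := by
  rw [mem_supp]
  intro hx
  rw [mem_sp]
  have h : ∀ π ∈ stab Q (Fm.var x), π ⟨x.2.2 i, hx⟩ = ⟨x.2.2 i, hx⟩ := by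
    intro π hπ
    rw [mem_stab] at hπ
    have h1 : (⟨x.1, x.2.1, fun i => ext Q π (x.2.2 i)⟩ : Atom L n) = x := hπ
    apply Subtype.ext
    rw [← Perm.ofSubtype_apply_coe]
    obtain ⟨r, R, a⟩ := x
    simp only [Sigma.mk.injEq, heq_eq_eq, true_and, Prod.mk.injEq] at h1
    exact congrFun h1 i
  have h2 : cls (stab Q (Fm.var x)) ⟨x.2.2 i, hx⟩ = {⟨x.2.2 i, hx⟩} := by
    ext y
    rw [mem_cls, Finset.mem_singleton]
    constructor
    · intro hr
      rcases hr with hr | ⟨h3, c, h4, h5, h6⟩
      · exact hr.symm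
      · exact absurd ((c3_apply_a h3 h4.symm).symm.trans (h _ h6)).symm h3
    · rintro rfl
      exact Or.inl rfl
  rw [h2, Finset.card_singleton, Fintype.card_coe]
  omega

lemma sign_c3 {α : Type} [DecidableEq α] [Fintype α] {a b c : α} (h1 : a ≠ b) (h2 : b ≠ c) :
    sign (c3 a b c) = 1 := by
  rw [Pool.Agent.SymCirc.c3, Perm.sign_mul, Perm.sign_swap h1, Perm.sign_swap h2]
  rfl

/-- a formula fixed by the even permutations which fix `X ⊇ Qᶜ` has its support in `X` -/
lemma supp_subset {A : Fm (Atom L n)} {X : Finset (Fin n)} (hQX : Qᶜ ⊆ X)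
    (hX : 2 * (X ∩ Q).card + 3 ≤ Q.card)
    (h : ∀ π : Perm (Fin n), sign π = 1 → (∀ x ∈ X, π x = x) → Same (permute π A) A) :
    supp Q A ⊆ X := by
  intro x hx
  by_contra hxX
  have hxQ : x ∈ Q := by
    by_contra hc
    exact hxX (hQX (Finset.mem_compl.2 hc))
  rw [mem_supp] at hx
  have hx := hx hxQ
  rw [mem_sp, Fintype.card_coe] at hx
  let Y : Finset {x // x ∈ Q} := Finset.univ.filter fun y => y.1 ∈ X
  have hY : Y.card = (X ∩ Q).card := by
    have : Y.map (Function.Embedding.subtype _) = X ∩ Q := by
      ext z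
      rw [Finset.mem_map, Finset.mem_inter]
      constructor
      · rintro ⟨y, hy, rfl⟩
        exact ⟨(Finset.mem_filter.1 hy).2, y.2⟩
      · rintro ⟨h1, h2⟩
        exact ⟨⟨z, h2⟩, Finset.mem_filter.2 ⟨Finset.mem_univ _, h1⟩, rfl⟩
    rw [← this, Finset.card_map]
  have h1 : Yᶜ ⊆ cls (stab Q A) ⟨x, hxQ⟩ := by
    intro y hy
    have hyX : y.1 ∉ X := by
      intro hc
      exact (Finset.mem_compl.1 hy) (Finset.mem_filter.2 ⟨Finset.mem_univ _, hc⟩)
    rw [mem_cls]
    by_cases hxy : (⟨x, hxQ⟩ : {x // x ∈ Q}) = y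
    · exact Or.inl hxy
    · right
      have h2 : ({⟨x, hxQ⟩, y} ∪ Y : Finset {x // x ∈ Q}).card < Q.card := by
        have h3 := Finset.card_union_le ({⟨x, hxQ⟩, y} : Finset {x // x ∈ Q}) Y
        have h4 := Finset.card_le_two (a := (⟨x, hxQ⟩ : {x // x ∈ Q})) (b := y)
        omega
      obtain ⟨c, hc⟩ : ∃ c, c ∉ ({⟨x, hxQ⟩, y} ∪ Y : Finset {x // x ∈ Q}) := by
        by_contra hcon
        push Not at hcon
        have h5 : (Finset.univ : Finset {x // x ∈ Q}) ⊆ ({⟨x, hxQ⟩, y} ∪ Y) :=
          fun z _ => hcon z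
        have := Finset.card_le_card h5
        rw [Finset.card_univ, Fintype.card_coe] at this
        omega
      simp only [Finset.mem_union, Finset.mem_insert, Finset.mem_singleton, not_or] at hc
      refine ⟨hxy, c, hc.1.1, hc.1.2, ?_⟩
      rw [mem_stab]
      apply h
      · rw [ext, Perm.sign_ofSubtype]
        exact sign_c3 hxy (Ne.symm hc.1.2)
      intro z hz
      by_cases hzQ : z ∈ Q
      swap
      · exact Perm.ofSubtype_apply_of_not_mem _ hzQ
      have hz3 : c3 (⟨x, hxQ⟩ : {x // x ∈ Q}) y c ⟨z, hzQ⟩ = ⟨z, hzQ⟩ := by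
        apply c3_apply_of_ne
        · intro he
          have he : z = x := congrArg Subtype.val he
          exact hxX (he ▸ hz)
        · intro he
          have he : z = y.1 := congrArg Subtype.val he
          exact hyX (he ▸ hz)
        · intro he
          apply hc.2
          rw [← he]
          exact Finset.mem_filter.2 ⟨Finset.mem_univ _, hz⟩
      have := Perm.ofSubtype_apply_coe (c3 (⟨x, hxQ⟩ : {x // x ∈ Q}) y c) ⟨z, hzQ⟩
      rw [hz3] at this
      exact this
  have h2 := Finset.card_le_card h1
  rw [Finset.card_compl, Fintype.card_coe] at h2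
  omega

/-- a formula with few images has a stabilizer of small index -/
lemma index_le {A : Fm (Atom L n)} {T : ℕ} (h : FewImages Q T A) : (stab Q A).index ≤ T := by
  classical
  obtain ⟨R, hR, h⟩ := h
  have h : ∀ σ : Perm {x // x ∈ Q}, ∃ B ∈ R, Same (permute (ext Q σ) A) B :=
    fun σ => h _ (fun x hx => Perm.ofSubtype_apply_of_not_mem _ hx)
  choose B hB hS using h
  have hfin : Fintype (Perm {x // x ∈ Q} ⧸ stab Q A) := Fintype.ofFinite _
  let f : (Perm {x // x ∈ Q} ⧸ stab Q A) → {B // B ∈ R} := fun q => ⟨B q.out, hB _⟩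
  have hf : Function.Injective f := by
    intro p q h
    have h1 : B p.out = B q.out := congrArg Subtype.val h
    have h2 : Same (permute (ext Q p.out) A) (permute (ext Q q.out) A) :=
      (hS p.out).trans (h1 ▸ (hS q.out).symm)
    have h3 : p.out⁻¹ * q.out ∈ stab Q A := by
      rw [mem_stab, ext, map_mul, map_inv, permute_mul]
      have := Same.permute (ext Q p.out)⁻¹ h2
      rw [← permute_mul, inv_mul_cancel, permute_one] at this
      exact this.symm
    have h4 := QuotientGroup.eq.2 h3
    rwa [QuotientGroup.out_eq', QuotientGroup.out_eq'] at h4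
  have hcard := Fintype.card_le_of_injective f hf
  rw [Fintype.card_coe, ← Nat.card_eq_fintype_card (α := Perm {x // x ∈ Q} ⧸ stab Q A)] at hcard
  exact le_trans hcard hR

variable (Q) in
/-- support of fewer than `r` elements of `Q`, in the strong sense -/
def Nice (r : ℕ) (A : Fm (Atom L n)) : Prop :=
  (supp Q A ∩ Q).card < r ∧ ∀ π : Perm (Fin n), sign π = 1 → (∀ x ∈ supp Q A, π x = x) →
    Same (permute π A) A

lemma nice_of_few {A : Fm (Atom L n)} {T b r : ℕ} (h : FewImages Q T A) (h1 : T < b.factorial)
    (h2 : T * 2 ^ (2 * b) < Q.card.choose r) (h3 : 4 * r ≤ Q.card) : Nice Q r A := by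
  have hi := index_le h
  have := Pool.Agent.SymSC.sp_bound (G := stab Q A) (b := b) (r := r) (lt_of_le_of_lt hi h1)
    (by
      rw [Fintype.card_coe]
      exact lt_of_le_of_lt (Nat.mul_le_mul_right _ hi) h2)
    (by rw [Fintype.card_coe]; exact h3)
  refine ⟨by rw [supp_inter]; exact this.1, ?_⟩
  intro π hπ hfix
  have hfQ : ∀ x ∉ Q, π x = x := fun x hx =>
    hfix x (compl_subset_supp Q A (Finset.mem_compl.2 hx))
  obtain ⟨σ, rfl⟩ := exists_ext hfQ
  refine this.2 σ ?_ ?_
  · rw [ext, Perm.sign_ofSubtype] at hπ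
    exact hπ
  · intro x hx
    have h4 := hfix x.1 ((mem_supp Q).2 fun _ => hx)
    rw [ext, Perm.ofSubtype_apply_coe] at h4
    exact Subtype.ext h4

lemma Nice.neg {r : ℕ} {A : Fm (Atom L n)} (h : Nice Q r A) : Nice Q r (.neg A) := by
  rw [Nice, supp_neg]
  exact h

end

end Pool.Agent.Lib.MP_e81270_lc_Gap
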