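import Mathlib

/-!
# Extended Frege refutations of the translations of first-order sentences (definitions)
-/

set_option autoImplicit false

namespace Pool.Agent.Lib.MP_e81270_lc_Gap

open FirstOrder

/-- Propositional formulas with variables from `V`, built by negation and disjunction of any
arity. The constant `false` is the empty disjunction. -/
inductive Fm (V : Type) : Type
  | var : V → Fm V
  | neg : Fm V → Fm V
  | or : (k : ℕ) → (Fin k → Fm V) → Fm V

/-- The size of a formula: its number of variable occurrences and connectives. -/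
def Fm.size {V : Type} : Fm V → ℕ
  | .var _ => 1
  | .neg A => 1 + A.size
  | .or _ f => 1 + ∑ i, (f i).size

/-- The depth of a formula: the largest number of nested disjunctions. -/
def Fm.depth {V : Type} : Fm V → ℕ
  | .var _ => 0
  | .neg A => A.depth
  | .or _ f => 1 + Finset.univ.sup fun i => (f i).depth

/-- Rename the variables. -/
def Fm.rename {V W : Type} (h : V → W) : Fm V → Fm W
  | .var x => .var (h x)
  | .neg A => .neg (A.rename h)
  | .or k f => .or k fun i => (f i).rename h

/-- One step of a refutation of the formula `Ax` with the extension definitions `D`. The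
variables are those of `Ax` (in `V`) and the extension variables `0, ..., m - 1`. A line is a list
of formulas, read as their disjunction; `prev` is the set of earlier lines. The axioms are `Ax`,
the two halves of each equivalence between an extension variable `i` and `D i`, and the excluded
middle. The rules are weakening (with permutation and contraction), cut, introduction of a
disjunction, of a negated disjunction, and of a double negation. -/
inductive Step {V : Type} {m : ℕ} (Ax : Fm V) (D : Fin m → Fm (V ⊕ Fin m))
    (prev : Set (List (Fm (V ⊕ Fin m)))) : List (Fm (V ⊕ Fin m)) → Prop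
  | ax : Step Ax D prev [Ax.rename .inl]
  | extLeft (i : Fin m) : Step Ax D prev [.neg (.var (.inr i)), D i]
  | extRight (i : Fin m) : Step Ax D prev [.var (.inr i), .neg (D i)]
  | middle (A : Fm (V ⊕ Fin m)) : Step Ax D prev [A, .neg A]
  | weak {Γ Δ : List (Fm (V ⊕ Fin m))} : Γ ∈ prev → Γ ⊆ Δ → Step Ax D prev Δ
  | cut {A : Fm (V ⊕ Fin m)} {Γ : List (Fm (V ⊕ Fin m))} :
      A :: Γ ∈ prev → .neg A :: Γ ∈ prev → Step Ax D prev Γ
  | orIntro {k : ℕ} {f : Fin k → Fm (V ⊕ Fin m)} {Γ : List (Fm (V ⊕ Fin m))} (i : Fin k) :
      f i :: Γ ∈ prev → Step Ax D prev (.or k f :: Γ)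
  | norIntro {k : ℕ} {f : Fin k → Fm (V ⊕ Fin m)} {Γ : List (Fm (V ⊕ Fin m))} :
      (∀ i, .neg (f i) :: Γ ∈ prev) → Step Ax D prev (.neg (.or k f) :: Γ)
  | dneg {A : Fm (V ⊕ Fin m)} {Γ : List (Fm (V ⊕ Fin m))} :
      A :: Γ ∈ prev → Step Ax D prev (.neg (.neg A) :: Γ)

/-- The lines of `P`, from the last to the first, form a derivation: every line follows from the
earlier ones by one step. -/
inductive IsDerivation {V : Type} {m : ℕ} (Ax : Fm V) (D : Fin m → Fm (V ⊕ Fin m)) :
    List (List (Fm (V ⊕ Fin m))) → Prop
  | nil : IsDerivation Ax D []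
  | cons {P : List (List (Fm (V ⊕ Fin m)))} {Γ : List (Fm (V ⊕ Fin m))} :
      IsDerivation Ax D P → Step Ax D {Δ | Δ ∈ P} Γ → IsDerivation Ax D (Γ :: P)

/-- An Extended Frege refutation of `Ax`: a derivation which contains the empty line. -/
def IsRefutation {V : Type} {m : ℕ} (Ax : Fm V) (D : Fin m → Fm (V ⊕ Fin m))
    (P : List (List (Fm (V ⊕ Fin m)))) : Prop :=
  IsDerivation Ax D P ∧ [] ∈ P

/-- The number of lines plus the sizes of all formulas in them. -/
def totalSize {W : Type} (P : List (List (Fm W))) : ℕ :=
  (P.map fun Γ => 1 + (Γ.map Fm.size).sum).sum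

/-- Replace the extension variables by the formulas `E i`. -/
def subst {V : Type} {m : ℕ} (E : Fin m → Fm V) : Fm (V ⊕ Fin m) → Fm V
  | .var (.inl x) => .var x
  | .var (.inr i) => E i
  | .neg A => .neg (subst E A)
  | .or k f => .or k fun i => subst E (f i)

/-- A line as a formula: the disjunction of its formulas. -/
def disj {V : Type} (Γ : List (Fm V)) : Fm V := .or Γ.length Γ.get

/-- `B` is a subformula of `A` (possibly `A` itself). -/
inductive Sub {V : Type} : Fm V → Fm V → Prop
  | refl (A : Fm V) : Sub A A
  | neg {B A : Fm V} : Sub B A → Sub B (.neg A)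
  | or {B : Fm V} {k : ℕ} {f : Fin k → Fm V} (i : Fin k) : Sub B (f i) → Sub B (.or k f)

/-- `A` and `B` are equal up to the order and the repetition of disjuncts. -/
def Same {V : Type} : Fm V → Fm V → Prop
  | .var x, .var y => x = y
  | .neg A, .neg B => Same A B
  | .or _ f, .or _ g => (∀ i, ∃ j, Same (f i) (g j)) ∧ ∀ j, ∃ i, Same (f i) (g j)
  | _, _ => False

/-- The propositional variables for an unknown structure on the set `{0, ..., n - 1}`:
`⟨r, R, a⟩` says that the `r`-ary relation `R` holds for the elements `a 0, ..., a (r - 1)`. -/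
abbrev Atom (L : FirstOrder.Language.{0, 0}) (n : ℕ) : Type := Σ r : ℕ, L.Relations r × (Fin r → Fin n)

/-- Permute the elements of the set `{0, ..., n - 1}` in a formula. -/
def permute {L : FirstOrder.Language.{0, 0}} {n : ℕ} (π : Equiv.Perm (Fin n)) (A : Fm (Atom L n)) :
    Fm (Atom L n) :=
  A.rename fun x => ⟨x.1, x.2.1, fun i => π (x.2.2 i)⟩

/-- The formula `A` has at most `T` images under the permutations of the elements of `Q`, up to
the order and the repetition of disjuncts. -/
def FewImages {L : FirstOrder.Language.{0, 0}} {n : ℕ} (Q : Finset (Fin n)) (T : ℕ)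
    (A : Fm (Atom L n)) : Prop :=
  ∃ R : Finset (Fm (Atom L n)), R.card ≤ T ∧ ∀ π : Equiv.Perm (Fin n), (∀ x ∉ Q, π x = x) →
    ∃ B ∈ R, Same (permute π A) B

/-- Every line of `P` and every subformula of a line has at most `T` images under the
permutations of the elements of `Q`, after the extension variables have been replaced by the
formulas `E i`. -/
def Symmetric {L : FirstOrder.Language.{0, 0}} {n m : ℕ} (Q : Finset (Fin n)) (T : ℕ)
    (E : Fin m → Fm (Atom L n)) (P : List (List (Fm (Atom L n ⊕ Fin m)))) : Prop :=
  ∀ Γ ∈ P, ∀ B, Sub B (disj (Γ.map (subst E))) → FewImages Q T B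

/-- The variable `x` occurs in a formula. -/
def Fm.Occurs {V : Type} (x : V) : Fm V → Prop
  | .var y => y = x
  | .neg A => A.Occurs x
  | .or _ f => ∃ i, (f i).Occurs x

/-- The definition of the extension variable `i` uses only extension variables `j < i`. -/
def Acyclic {V : Type} {m : ℕ} (D : Fin m → Fm (V ⊕ Fin m)) : Prop :=
  ∀ i j, (D i).Occurs (.inr j) → j < i

/-- Permute the elements of `{0, ..., n - 1}` by `π` and the extension variables by `τ`. -/
def move {L : FirstOrder.Language.{0, 0}} {n m : ℕ} (π : Equiv.Perm (Fin n))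
    (τ : Equiv.Perm (Fin m)) (A : Fm (Atom L n ⊕ Fin m)) : Fm (Atom L n ⊕ Fin m) :=
  A.rename (Sum.map (fun x => ⟨x.1, x.2.1, fun i => π (x.2.2 i)⟩) τ)

/-- The refutation `P` with the definitions `D` is invariant under the permutations of the elements
of `Q`: together with suitable permutations of the extension variables they map definitions to
definitions and lines to lines, up to the order and the repetition of disjuncts. -/
def Invariant {L : FirstOrder.Language.{0, 0}} {n m : ℕ} (Q : Finset (Fin n))
    (D : Fin m → Fm (Atom L n ⊕ Fin m)) (P : List (List (Fm (Atom L n ⊕ Fin m)))) : Prop :=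
  ∀ π : Equiv.Perm (Fin n), (∀ x ∉ Q, π x = x) → ∃ τ : Equiv.Perm (Fin m),
    (∀ i, Same (move π τ (D i)) (D (τ i))) ∧
    ∀ Γ ∈ P, ∃ Δ ∈ P, Same (move π τ (disj Γ)) (disj Δ)

/-- A term of a language without function symbols is a variable. -/
def varOf {L : FirstOrder.Language.{0, 0}} [L.IsRelational] {β : Type} : L.Term β → β
  | .var x => x
  | .func f _ => isEmptyElim f

/-- The propositional translation of a first-order formula over the set `{0, ..., n - 1}`, with
the elements `a i` for the free variables: the quantifiers become conjunctions or disjunctions over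
this set. -/
def trans {L : FirstOrder.Language.{0, 0}} [L.IsRelational] {n : ℕ} :
    {k : ℕ} → L.BoundedFormula Empty k → (Fin k → Fin n) → Fm (Atom L n)
  | _, .falsum, _ => .or 0 Fin.elim0
  | _, .equal s t, a =>
    if Sum.elim Empty.elim a (varOf s) = Sum.elim Empty.elim a (varOf t) then
      .neg (.or 0 Fin.elim0) else .or 0 Fin.elim0
  | _, .rel R ts, a => .var ⟨_, R, fun i => Sum.elim Empty.elim a (varOf (ts i))⟩
  | _, .imp φ ψ, a => .or 2 ![.neg (trans φ a), trans ψ a]
  | _, .all φ, a => .neg (.or n fun u => .neg (trans φ (Fin.snoc a u)))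

/-- The propositional translation of a sentence: satisfiable if and only if the sentence has a
model with `n` elements. -/
def translation {L : FirstOrder.Language.{0, 0}} [L.IsRelational] (Ψ : L.Sentence) (n : ℕ) :
    Fm (Atom L n) :=
  trans (n := n) (k := 0) Ψ Fin.elim0

end Pool.Agent.Lib.MP_e81270_lc_Gap
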