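import Pool.Agent.Lib.MP_e81270_lc_Gap.Sound

/-!
# Derivations without extension variables, with bounds
-/

set_option autoImplicit false
set_option linter.unusedSectionVars false

namespace Pool.Agent.Lib.MP_e81270_lc_Gap

open FirstOrder Equiv Equiv.Perm

/-- the size of a line -/
def lsize {V : Type} (Γ : List (Fm V)) : ℕ := 1 + (Γ.map Fm.size).sum

lemma totalSize_eq {V : Type} (P : List (List (Fm V))) : totalSize P = (P.map lsize).sum := rfl

/-- a line without extension variables -/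
def lift {V : Type} (Γ : List (Fm V)) : List (Fm (V ⊕ Fin 0)) := Γ.map (Fm.rename .inl)

lemma size_rename {V W : Type} (h : V → W) (A : Fm V) : (A.rename h).size = A.size := by
  induction A with
  | var x => rfl
  | neg A ih => simp only [Fm.rename, Fm.size, ih]
  | or k f ih => simp only [Fm.rename, Fm.size, ih]

lemma depth_rename {V W : Type} (h : V → W) (A : Fm V) : (A.rename h).depth = A.depth := by
  induction A with
  | var x => rfl
  | neg A ih => simp only [Fm.rename, Fm.depth, ih]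
  | or k f ih => simp only [Fm.rename, Fm.depth, ih]

lemma lsize_lift {V : Type} (Γ : List (Fm V)) : lsize (lift Γ) = lsize Γ := by
  rw [lsize, lsize, lift, List.map_map]
  congr 2
  apply List.map_congr_left
  intro A _
  exact size_rename _ A

section
variable {V : Type} {m : ℕ} {Ax : Fm V} {D : Fin m → Fm (V ⊕ Fin m)}

lemma Step.mono {prev prev' : Set (List (Fm (V ⊕ Fin m)))} (h : prev ⊆ prev')
    {Γ : List (Fm (V ⊕ Fin m))} (hs : Step Ax D prev Γ) : Step Ax D prev' Γ := by
  cases hs with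
  | ax => exact .ax
  | extLeft i => exact .extLeft i
  | extRight i => exact .extRight i
  | middle A => exact .middle A
  | weak h1 h2 => exact .weak (h h1) h2
  | cut h1 h2 => exact .cut (h h1) (h h2)
  | orIntro i h1 => exact .orIntro i (h h1)
  | norIntro h1 => exact .norIntro fun i => h (h1 i)
  | dneg h1 => exact .dneg (h h1)

lemma IsDerivation.append {P P' : List (List (Fm (V ⊕ Fin m)))} (h : IsDerivation Ax D P)
    (h' : IsDerivation Ax D P') : IsDerivation Ax D (P ++ P') := by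
  induction h with
  | nil => exact h'
  | cons _ hs ih => exact .cons ih (hs.mono fun Γ hΓ => List.mem_append_left _ hΓ)

end

section
variable {V : Type} (Ax : Fm V) (good : List (Fm V) → Prop)

/-- there is a derivation of `Γ` of size at most `s` with good lines -/
def Der (s : ℕ) (Γ : List (Fm V)) : Prop :=
  ∃ P : List (List (Fm V)), IsDerivation (m := 0) Ax Fin.elim0 (P.map lift) ∧ Γ ∈ P ∧
    (P.map lsize).sum ≤ s ∧ ∀ Δ ∈ P, good Δ

variable {Ax good}

lemma Der.mono {s s' : ℕ} {Γ : List (Fm V)} (h : Der Ax good s Γ) (hs : s ≤ s') :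
    Der Ax good s' Γ := by
  obtain ⟨P, h1, h2, h3, h4⟩ := h
  exact ⟨P, h1, h2, h3.trans hs, h4⟩

lemma Der.mono_good {good' : List (Fm V) → Prop} {s : ℕ} {Γ : List (Fm V)}
    (h : Der Ax good s Γ) (hg : ∀ Δ, good Δ → good' Δ) : Der Ax good' s Γ := by
  obtain ⟨P, h1, h2, h3, h4⟩ := h
  exact ⟨P, h1, h2, h3, fun Δ hΔ => hg Δ (h4 Δ hΔ)⟩

/-- add one line -/
lemma Der.step {P : List (List (Fm V))} {s : ℕ} {Γ : List (Fm V)}
    (h1 : IsDerivation (m := 0) Ax Fin.elim0 (P.map lift)) (h3 : (P.map lsize).sum ≤ s)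
    (h4 : ∀ Δ ∈ P, good Δ) (hΓ : good Γ)
    (hs : Step (m := 0) Ax Fin.elim0 {Δ | Δ ∈ P.map lift} (lift Γ)) :
    Der Ax good (s + lsize Γ) Γ := by
  refine ⟨Γ :: P, ?_, List.mem_cons_self, ?_, ?_⟩
  · rw [List.map_cons]
    exact .cons h1 hs
  · rw [List.map_cons, List.sum_cons]
    omega
  · intro Δ hΔ
    rcases List.mem_cons.1 hΔ with rfl | hΔ
    · exact hΓ
    · exact h4 Δ hΔ

lemma der_ax (hΓ : good [Ax]) : Der Ax good (lsize [Ax]) [Ax] := by
  have := Der.step (P := []) (s := 0) (Ax := Ax) (good := good) (Γ := [Ax]) .nil (by simp)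
    (by simp) hΓ (by exact .ax)
  simpa using this

lemma der_middle {A : Fm V} (hΓ : good [A, .neg A]) :
    Der Ax good (lsize [A, .neg A]) [A, .neg A] := by
  have := Der.step (P := []) (s := 0) (Ax := Ax) (good := good) (Γ := [A, .neg A]) .nil
    (by simp) (by simp) hΓ (by exact .middle _)
  simpa using this

lemma der_top {f : Fin 0 → Fm V} (hΓ : good [.neg (.or 0 f)]) :
    Der Ax good (lsize [Fm.neg (.or 0 f)]) [.neg (.or 0 f)] := by
  have := Der.step (P := []) (s := 0) (Ax := Ax) (good := good) (Γ := [.neg (.or 0 f)]) .nil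
    (by simp) (by simp) hΓ (by exact .norIntro fun i => i.elim0)
  simpa using this

lemma Der.weak {s : ℕ} {Γ Δ : List (Fm V)} (h : Der Ax good s Γ) (hs : Γ ⊆ Δ)
    (hΔ : good Δ) : Der Ax good (s + lsize Δ) Δ := by
  obtain ⟨P, h1, h2, h3, h4⟩ := h
  exact Der.step h1 h3 h4 hΔ (.weak (Γ := lift Γ) (List.mem_map_of_mem h2)
    (List.map_subset _ hs))

lemma Der.cut {s s' : ℕ} {A : Fm V} {Γ : List (Fm V)} (h : Der Ax good s (A :: Γ))
    (h' : Der Ax good s' (.neg A :: Γ)) (hΓ : good Γ) :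
    Der Ax good (s + s' + lsize Γ) Γ := by
  obtain ⟨P, h1, h2, h3, h4⟩ := h
  obtain ⟨P', h1', h2', h3', h4'⟩ := h'
  refine Der.step (P := P ++ P') ?_ ?_ ?_ hΓ ?_
  · rw [List.map_append]
    exact h1.append h1'
  · rw [List.map_append, List.sum_append]
    omega
  · intro Δ hΔ
    rcases List.mem_append.1 hΔ with hΔ | hΔ
    · exact h4 Δ hΔ
    · exact h4' Δ hΔ
  · refine .cut (A := A.rename .inl) ?_ ?_
    · exact List.mem_map_of_mem (f := lift) (List.mem_append_left P' h2)
    · exact List.mem_map_of_mem (f := lift) (List.mem_append_right P h2')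

lemma Der.or {s : ℕ} {k : ℕ} {f : Fin k → Fm V} {Γ : List (Fm V)} (i : Fin k)
    (h : Der Ax good s (f i :: Γ)) (hΔ : good (.or k f :: Γ)) :
    Der Ax good (s + lsize (.or k f :: Γ)) (.or k f :: Γ) := by
  obtain ⟨P, h1, h2, h3, h4⟩ := h
  refine Der.step h1 h3 h4 hΔ ?_
  exact .orIntro (f := fun i => (f i).rename .inl) (Γ := lift Γ) i
    (List.mem_map_of_mem (f := lift) h2)

lemma Der.dneg {s : ℕ} {A : Fm V} {Γ : List (Fm V)}
    (h : Der Ax good s (A :: Γ)) (hΔ : good (.neg (.neg A) :: Γ)) :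
    Der Ax good (s + lsize (.neg (.neg A) :: Γ)) (.neg (.neg A) :: Γ) := by
  obtain ⟨P, h1, h2, h3, h4⟩ := h
  refine Der.step h1 h3 h4 hΔ ?_
  exact .dneg (Γ := lift Γ) (List.mem_map_of_mem (f := lift) h2)

lemma exists_flat {k : ℕ} {s : ℕ} {G : Fin k → List (Fm V)} (h : ∀ i, Der Ax good s (G i))
    (l : List (Fin k)) : ∃ P : List (List (Fm V)),
      IsDerivation (m := 0) Ax Fin.elim0 (P.map lift) ∧ (∀ i ∈ l, G i ∈ P) ∧
      (P.map lsize).sum ≤ l.length * s ∧ ∀ Δ ∈ P, good Δ := by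
  induction l with
  | nil => exact ⟨[], .nil, by simp, by simp, by simp⟩
  | cons i l ih =>
    obtain ⟨P', h1', h2', h3', h4'⟩ := ih
    obtain ⟨P, h1, h2, h3, h4⟩ := h i
    refine ⟨P ++ P', ?_, ?_, ?_, ?_⟩
    · rw [List.map_append]
      exact h1.append h1'
    · intro j hj
      rcases List.mem_cons.1 hj with rfl | hj
      · exact List.mem_append_left _ h2
      · exact List.mem_append_right _ (h2' j hj)
    · rw [List.map_append, List.sum_append, List.length_cons, Nat.add_mul, one_mul]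
      omega
    · intro Δ hΔ
      rcases List.mem_append.1 hΔ with hΔ | hΔ
      · exact h4 Δ hΔ
      · exact h4' Δ hΔ

lemma der_nor {s : ℕ} {k : ℕ} {f : Fin k → Fm V} {Γ : List (Fm V)}
    (h : ∀ i, Der Ax good s (.neg (f i) :: Γ)) (hΔ : good (.neg (.or k f) :: Γ)) :
    Der Ax good (k * s + lsize (.neg (.or k f) :: Γ)) (.neg (.or k f) :: Γ) := by
  obtain ⟨P, h1, h2, h3, h4⟩ := exists_flat h (List.finRange k)
  rw [List.length_finRange] at h3
  refine Der.step h1 h3 h4 hΔ ?_
  exact .norIntro (f := fun i => (f i).rename .inl) (Γ := lift Γ) fun i =>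
    List.mem_map_of_mem (f := lift) (h2 i (List.mem_finRange i))

end

end Pool.Agent.Lib.MP_e81270_lc_Gap
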