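import Pool.Agent.Lib.MP_e81270_lc_Gap.Sound
import Pool.Agent.Lib.MP_8fffab_lc_Sym.Rate

/-!
# The values of the translations and the lower bound
-/

set_option autoImplicit false
set_option linter.unusedSectionVars false

namespace Pool.Agent.Lib.MP_e81270_lc_Gap

open FirstOrder Equiv Equiv.Perm

section
variable {L : FirstOrder.Language.{0, 0}} [L.IsRelational] {n : ℕ} {Q : Finset (Fin n)}

/-- the largest number of free variables of a subformula -/
def wd : {k : ℕ} → L.BoundedFormula Empty k → ℕ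
  | k, .falsum => k
  | k, .equal _ _ => k
  | k, .rel _ _ => k
  | _, .imp φ ψ => max (wd φ) (wd ψ)
  | _, .all φ => wd φ

lemma le_wd {k : ℕ} (φ : L.BoundedFormula Empty k) : k ≤ wd φ := by
  induction φ with
  | falsum => exact le_refl _
  | equal _ _ => exact le_refl _
  | rel _ _ => exact le_refl _
  | imp φ ψ h1 _ => exact h1.trans (le_max_left _ _)
  | all φ h => exact (Nat.le_succ _).trans h

lemma elim_comp {β : Type} {k : ℕ} (g : Fin n → β) (a : Fin k → Fin n) (x : Empty ⊕ Fin k) :
    Sum.elim Empty.elim (g ∘ a) x = g (Sum.elim Empty.elim a x) := by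
  rcases x with x | x
  · exact x.elim
  · rfl

lemma snoc_comp {β : Type} {k : ℕ} (g : Fin n → β) (a : Fin k → Fin n) (u : Fin n) :
    g ∘ (Fin.snoc a u : Fin (k + 1) → Fin n) = Fin.snoc (g ∘ a) (g u) := by
  funext i
  refine Fin.lastCases ?_ (fun j => ?_) i
  · simp
  · simp

lemma permute_trans {k : ℕ} (φ : L.BoundedFormula Empty k) (a : Fin k → Fin n)
    (π : Perm (Fin n)) : Same (permute π (trans φ a)) (trans φ (π ∘ a)) := by
  induction φ with
  | falsum => exact ⟨fun i => i.elim0, fun i => i.elim0⟩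
  | equal s t =>
    rw [trans, trans, elim_comp, elim_comp]
    by_cases h : Sum.elim Empty.elim a (varOf s) = Sum.elim Empty.elim a (varOf t)
    · rw [if_pos h, if_pos (congrArg π h)]
      exact ⟨fun i => i.elim0, fun i => i.elim0⟩
    · rw [if_neg h, if_neg (fun h' => h (π.injective h'))]
      exact ⟨fun i => i.elim0, fun i => i.elim0⟩
  | rel R ts =>
    rw [trans, trans]
    have : (fun i => Sum.elim Empty.elim (π ∘ a) (varOf (ts i))) =
        fun i => π (Sum.elim Empty.elim a (varOf (ts i))) := funext fun i => elim_comp _ _ _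
    rw [this]
    exact Same.refl _
  | imp φ ψ h1 h2 =>
    rw [trans, trans]
    have h : ∀ i : Fin 2, Same ((fun i => permute π (![Fm.neg (trans φ a), trans ψ a] i)) i)
        (![Fm.neg (trans φ (π ∘ a)), trans ψ (π ∘ a)] i) := by
      intro i
      fin_cases i
      · exact h1 a
      · exact h2 a
    exact ⟨fun i => ⟨i, h i⟩, fun i => ⟨i, h i⟩⟩
  | all φ h =>
    rw [trans, trans]
    refine ⟨fun u => ⟨π u, ?_⟩, fun u => ⟨π.symm u, ?_⟩⟩
    · have := h (Fin.snoc a u)
      rw [snoc_comp] at this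
      exact this
    · have := h (Fin.snoc a (π.symm u))
      rw [snoc_comp, Equiv.apply_symm_apply] at this
      exact this

lemma card_compl_union_inter {k : ℕ} (a : Fin k → Fin n) :
    ((Qᶜ ∪ Finset.univ.image a) ∩ Q).card ≤ k := by
  have hc : (Finset.univ.image a).card ≤ k :=
    Finset.card_image_le.trans (by rw [Finset.card_univ, Fintype.card_fin])
  refine le_trans (Finset.card_le_card ?_) hc
  intro x hx
  rw [Finset.mem_inter, Finset.mem_union, Finset.mem_compl] at hx
  exact hx.1.resolve_left (not_not.2 hx.2)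

lemma supp_trans {k : ℕ} (φ : L.BoundedFormula Empty k) (a : Fin k → Fin n)
    (hk : 2 * k + 3 ≤ Q.card) : supp Q (trans φ a) ⊆ Qᶜ ∪ Finset.univ.image a := by
  have hc := card_compl_union_inter (Q := Q) a
  apply supp_subset Finset.subset_union_left (by omega)
  intro π _ hπ
  have : π ∘ a = a := funext fun i =>
    hπ _ (Finset.mem_union_right _ (Finset.mem_image_of_mem a (Finset.mem_univ i)))
  have h := permute_trans φ a π
  rwa [this] at h

variable {M : Type} [L.Structure M]

lemma realize_varOf {β : Type} (t : L.Term β) (v : β → M) : t.realize v = v (varOf t) := by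
  cases t with
  | var x => rfl
  | func f _ => exact isEmptyElim f

lemma elim_default {k : ℕ} (v : Empty → M) (ι : Fin n → M) (a : Fin k → Fin n)
    (x : Empty ⊕ Fin k) :
    Sum.elim v (ι ∘ a) x = ι (Sum.elim Empty.elim a x) := by
  rcases x with x | x
  · exact x.elim
  · rfl

variable [Infinite M] {r : ℕ}

theorem val_trans (hn : 4 * r + 2 ≤ Q.card) {k : ℕ} (φ : L.BoundedFormula Empty k)
    (a : Fin k → Fin n) (hnice : ∀ B, Sub B (trans φ a) → Nice Q r B)
    (hw : 2 * wd φ + 3 ≤ Q.card) (hw2 : wd φ + 2 * r ≤ Q.card) {ι : Fin n → M}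
    (hι : Function.Injective ι) (v : Empty → M) :
    val Q (trans φ a) ι ↔ φ.Realize v (ι ∘ a) := by
  induction φ generalizing ι with
  | falsum =>
    rw [trans, val]
    constructor
    · rintro ⟨_, _, _, i, _⟩
      exact i.elim0
    · intro h
      exact h.elim
  | equal s t =>
    have h1 : (Language.BoundedFormula.equal s t).Realize v (ι ∘ a) ↔
        Sum.elim Empty.elim a (varOf s) = Sum.elim Empty.elim a (varOf t) := by
      show s.realize _ = t.realize _ ↔ _
      rw [realize_varOf, realize_varOf, elim_default, elim_default]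
      exact hι.eq_iff
    rw [h1, trans]
    have h0 : ¬ val Q (Fm.or 0 Fin.elim0 : Fm (Atom L n)) ι := by
      rw [val]
      rintro ⟨_, _, _, i, _⟩
      exact i.elim0
    by_cases h : Sum.elim Empty.elim a (varOf s) = Sum.elim Empty.elim a (varOf t)
    · rw [if_pos h, val]
      simp [h, h0]
    · rw [if_neg h]
      simp [h, h0]
  | rel R ts =>
    rw [trans, val]
    show _ ↔ Language.Structure.RelMap R _
    have : (fun i => (ts i).realize (Sum.elim v (ι ∘ a))) =
        fun i => ι (Sum.elim Empty.elim a (varOf (ts i))) :=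
      funext fun i => by rw [realize_varOf, elim_default]
    rw [this]
  | imp φ ψ h1 h2 =>
    rw [trans] at hnice ⊢
    rw [wd] at hw hw2
    have hφ := le_max_left (wd φ) (wd ψ)
    have hψ := le_max_right (wd φ) (wd ψ)
    have n1 : ∀ B, Sub B (trans φ a) → Nice Q r B :=
      fun B hB => hnice B (.or (f := ![Fm.neg (trans φ a), trans ψ a]) 0 (.neg hB))
    have n2 : ∀ B, Sub B (trans ψ a) → Nice Q r B :=
      fun B hB => hnice B (.or (f := ![Fm.neg (trans φ a), trans ψ a]) 1 hB)
    have e1 : ∀ κ : Fin n → M, Function.Injective κ →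
        (val Q (trans φ a) κ ↔ φ.Realize v (κ ∘ a)) :=
      fun κ hκ => h1 a n1 (by omega) (by omega) hκ
    have e2 : ∀ κ : Fin n → M, Function.Injective κ →
        (val Q (trans ψ a) κ ↔ ψ.Realize v (κ ∘ a)) :=
      fun κ hκ => h2 a n2 (by omega) (by omega) hκ
    show _ ↔ (φ.Realize v (ι ∘ a) → ψ.Realize v (ι ∘ a))
    rw [← e1 ι hι, ← e2 ι hι]
    have c1 := (n1 _ (.refl _)).1
    have c2 := (n2 _ (.refl _)).1
    have c3 := union_inter_card_le (Q := Q) (supp Q (trans φ a)) (supp Q (trans ψ a))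
    constructor
    · intro h hφ'
      obtain ⟨κ, k1, k2, i, k3⟩ := exchange (hnice _ (.refl _))
        (fun i => hnice _ (.or i (.refl _))) hι h (supp Q (trans φ a) ∪ supp Q (trans ψ a))
        (by omega) (by omega)
      have l1 : val Q (trans φ a) κ ↔ val Q (trans φ a) ι := val_loc (by omega) fun x hx =>
        k2 x (Finset.mem_union_right _ (Finset.mem_union_left _ hx))
      have l2 : val Q (trans ψ a) κ ↔ val Q (trans ψ a) ι := val_loc (by omega) fun x hx =>
        k2 x (Finset.mem_union_right _ (Finset.mem_union_right _ hx))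
      rw [← l2]
      have key : ∀ j : Fin 2, val Q (![Fm.neg (trans φ a), trans ψ a] j) κ →
          val Q (trans ψ a) κ := by
        intro j hj
        fin_cases j
        · exact absurd (l1.2 hφ') hj
        · exact hj
      exact key i k3
    · intro h
      by_cases hφ' : val Q (trans φ a) ι
      · exact ⟨ι, hι, fun _ _ => rfl, 1, h hφ'⟩
      · exact ⟨ι, hι, fun _ _ => rfl, 0, hφ'⟩
  | @all k φ h =>
    rw [trans] at hnice ⊢
    rw [wd] at hw hw2
    have hkw := le_wd φ
    have n1 : ∀ u, ∀ B, Sub B (trans φ (Fin.snoc a u)) → Nice Q r B :=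
      fun u B hB => hnice B (.neg (.or (f := fun u => Fm.neg (trans φ (Fin.snoc a u))) u
        (.neg hB)))
    have e1 : ∀ u, ∀ κ : Fin n → M, Function.Injective κ →
        (val Q (trans φ (Fin.snoc a u)) κ ↔ φ.Realize v (Fin.snoc (κ ∘ a) (κ u))) := by
      intro u κ hκ
      rw [← snoc_comp]
      exact h (Fin.snoc a u) (n1 u) hw hw2 hκ
    have hor : Nice Q r (Fm.or n fun u => Fm.neg (trans φ (Fin.snoc a u))) :=
      hnice _ (.neg (.refl _))
    have hfu : ∀ u, Nice Q r (Fm.neg (trans φ (Fin.snoc a u))) := fun u =>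
      hnice _ (.neg (.or (f := fun u => Fm.neg (trans φ (Fin.snoc a u))) u (.refl _)))
    have hsub : supp Q (Fm.or n fun u => Fm.neg (trans φ (Fin.snoc a u))) ⊆
        Qᶜ ∪ Finset.univ.image a := by
      have := supp_trans (Q := Q) (.all φ) a (by omega)
      rw [trans, supp_neg] at this
      exact this
    have hc := card_compl_union_inter (Q := Q) a
    show _ ↔ ∀ m : M, φ.Realize v (Fin.snoc (ι ∘ a) m)
    rw [val]
    constructor
    · intro hno m
      by_contra hm
      apply hno
      obtain ⟨X, hX⟩ : ∃ X, X = Qᶜ ∪ Finset.univ.image a := ⟨_, rfl⟩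
      rw [← hX] at hc hsub
      have haX : ∀ i, a i ∈ X := fun i => hX ▸
        Finset.mem_union_right _ (Finset.mem_image_of_mem a (Finset.mem_univ i))
      by_cases hmem : ∃ y ∈ X, ι y = m
      · obtain ⟨y, -, rfl⟩ := hmem
        refine ⟨ι, hι, fun _ _ => rfl, y, ?_⟩
        show ¬ val Q _ _
        rw [e1 y ι hι]
        exact hm
      · obtain ⟨u, hu⟩ : ∃ u, u ∉ X := by
          by_contra hcon
          push Not at hcon
          have h5 : Q ⊆ X ∩ Q := fun z hz => Finset.mem_inter.2 ⟨hcon z, hz⟩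
          have := Finset.card_le_card h5
          omega
        obtain ⟨κ, k1, k2⟩ := exists_inj (M := M) (insert u X)
          (Function.update ι u m) (by
            intro x hx y hy hxy
            rw [Finset.mem_coe, Finset.mem_insert] at hx hy
            rcases hx with hx | hx <;> rcases hy with hy | hy
            · rw [hx, hy]
            · exfalso
              have hyu : y ≠ u := fun h => hu (h ▸ hy)
              rw [hx, Function.update_self, Function.update_of_ne hyu] at hxy
              exact hmem ⟨y, hy, hxy.symm⟩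
            · exfalso
              have hxu : x ≠ u := fun h => hu (h ▸ hx)
              rw [hy, Function.update_self, Function.update_of_ne hxu] at hxy
              exact hmem ⟨x, hx, hxy⟩
            · have hxu : x ≠ u := fun h => hu (h ▸ hx)
              have hyu : y ≠ u := fun h => hu (h ▸ hy)
              rw [Function.update_of_ne hxu, Function.update_of_ne hyu] at hxy
              exact hι hxy)
        have hka : ∀ x ∈ X, κ x = ι x := by
          intro x hx
          have hxu : x ≠ u := fun h => hu (h ▸ hx)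
          rw [k2 x (Finset.mem_insert_of_mem hx), Function.update_of_ne hxu]
        have hku : κ u = m := by
          rw [k2 u (Finset.mem_insert_self _ _), Function.update_self]
        refine ⟨κ, k1, fun x hx => hka x (hsub hx), u, ?_⟩
        show ¬ val Q _ _
        rw [e1 u κ k1, hku]
        have : κ ∘ a = ι ∘ a := funext fun i => hka _ (haX i)
        rw [this]
        exact hm
    · intro hall hv
      obtain ⟨κ, k1, k2, u, k3⟩ := exchange hor hfu hι hv (Qᶜ ∪ Finset.univ.image a) (by omega)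
        (by omega)
      have k3 : ¬ val Q (trans φ (Fin.snoc a u)) κ := k3
      rw [e1 u κ k1] at k3
      have : κ ∘ a = ι ∘ a := funext fun i =>
        k2 _ (Finset.mem_union_right _ (Finset.mem_union_right _
          (Finset.mem_image_of_mem a (Finset.mem_univ i))))
      rw [this] at k3
      exact k3 (hall _)

/-- the translation of a true sentence is valid -/
lemma valid_translation (hn : 4 * r + 2 ≤ Q.card) (Ψ : L.Sentence) (hM : M ⊨ Ψ)
    (hw : 2 * wd Ψ + 3 ≤ Q.card) (hw2 : wd Ψ + 2 * r ≤ Q.card)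
    (hnice : NiceLine Q r [translation Ψ n]) : Valid Q M [translation Ψ n] := by
  intro ι hι
  rw [val_disj]
  refine ⟨ι, hι, fun _ _ => rfl, _, List.mem_singleton_self _, ?_⟩
  rw [translation, val_trans hn (k := 0) Ψ Fin.elim0
    (fun B hB => hnice B (sub_disj (List.mem_singleton_self _) hB)) hw hw2 hι default]
  have : ι ∘ (Fin.elim0 : Fin 0 → Fin n) = default := Subsingleton.elim _ _
  rw [this]
  exact hM

end

open Filter Topology in
open Pool.Agent.SymSC (choose_four_lower exists_factorial) in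
/-- numbers -/
lemma exists_numbers (w : ℕ) : ∃ n₀ : ℕ, ∀ n ≥ n₀, ∀ T : ℕ, T ^ 5 < 2 ^ (4 * n) →
    ∃ b r : ℕ, T < b.factorial ∧ T * 2 ^ (2 * b) < n.choose r ∧ 4 * r + 2 ≤ n ∧
      2 * w + 3 ≤ n ∧ w + 2 * r ≤ n := by
  obtain ⟨c, hc⟩ : ∃ c : ℕ, c = 4 * w + 8 := ⟨_, rfl⟩
  have hρ : (1 : ℝ) < (256 / 27) ^ 5 / (65536 * (11 / 10)) := by norm_num
  have h1 := tendsto_pow_const_div_const_pow_of_one_lt 5 hρ
  have h2 : ∀ᶠ m : ℕ in atTop, (m : ℝ) ^ 5 / ((256 / 27) ^ 5 / (65536 * (11 / 10)) : ℝ) ^ m <
      1 / (2 ^ (4 * c) * (64 / 27) ^ 5) := h1.eventually (gt_mem_nhds (by positivity))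
  obtain ⟨m₁, hm₁⟩ := eventually_atTop.1 h2
  obtain ⟨m₂, hm₂⟩ := exists_factorial 100 (2 ^ (16 + 4 * c)) (by norm_num)
  refine ⟨4 * (m₁ + m₂ + 1) + c, fun n hn T hT => ?_⟩
  obtain ⟨m, hm⟩ : ∃ m : ℕ, m = (n - (4 * w + 4)) / 4 := ⟨_, rfl⟩
  have hmn : 4 * m + (4 * w + 4) ≤ n := by omega
  have hnm : n ≤ 4 * m + c := by omega
  have hmm : m₁ + m₂ + 1 ≤ m := by omega
  have hT2 : T ^ 5 < 2 ^ (16 * m + 4 * c) :=
    lt_of_lt_of_le hT (Nat.pow_le_pow_right (by norm_num) (by omega))
  refine ⟨m / 100, m, ?_, ?_, by omega, by omega, by omega⟩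
  · refine lt_of_le_of_lt ?_ (hm₂ m (by omega))
    have e1 : 16 * m + 4 * c ≤ (16 + 4 * c) * m := by
      have e2 : 4 * c * 1 ≤ 4 * c * m := Nat.mul_le_mul_left _ (by omega)
      rw [Nat.add_mul]
      omega
    rw [← pow_mul]
    exact le_trans (Nat.le_self_pow (by norm_num) T)
      (le_trans hT2.le (Nat.pow_le_pow_right (by norm_num) e1))
  · have h3 : (4 * m).choose m ≤ n.choose m := Nat.choose_le_choose _ (by omega)
    refine lt_of_lt_of_le ?_ h3
    have h4 := choose_four_lower m (by omega)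
    have h5 := hm₁ m (by omega)
    have hm0 : (0 : ℝ) < m := by exact_mod_cast (show 0 < m by omega)
    have hpos : (0 : ℝ) < ((256 / 27) ^ 5 / (65536 * (11 / 10)) : ℝ) ^ m := by positivity
    rw [div_lt_div_iff₀ hpos (by positivity), one_mul,
      div_pow ((256 / 27 : ℝ) ^ 5) (65536 * (11 / 10)) m, lt_div_iff₀ (by positivity)] at h5
    have h6 : ((256 / 27 : ℝ) ^ m) ^ 5 ≤ (((4 * m).choose m : ℝ) * (m * (64 / 27))) ^ 5 :=
      pow_le_pow_left₀ (by positivity) h4 5
    have h7 : (2 : ℝ) ^ (10 * (m / 100)) ≤ (11 / 10) ^ m := by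
      have h8 : 100 * (m / 100) ≤ m := Nat.mul_div_le m 100
      calc (2 : ℝ) ^ (10 * (m / 100)) ≤ ((11 / 10 : ℝ) ^ 10) ^ (10 * (m / 100)) :=
            pow_le_pow_left₀ (by norm_num) (by norm_num) _
        _ = (11 / 10 : ℝ) ^ (100 * (m / 100)) := by rw [← pow_mul]; congr 1; ring
        _ ≤ _ := pow_le_pow_right₀ (by norm_num) h8
    have h8 : ((T * 2 ^ (2 * (m / 100)) : ℕ) : ℝ) ^ 5 < (((4 * m).choose m : ℕ) : ℝ) ^ 5 := by
      have h9 : ((T : ℝ)) ^ 5 < 2 ^ (16 * m + 4 * c) := by exact_mod_cast hT2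
      have h10 : ((T * 2 ^ (2 * (m / 100)) : ℕ) : ℝ) ^ 5 =
          (T : ℝ) ^ 5 * 2 ^ (10 * (m / 100)) := by
        push_cast
        rw [mul_pow, ← pow_mul]
        congr 2
        ring
      have h11 : ((T * 2 ^ (2 * (m / 100)) : ℕ) : ℝ) ^ 5 <
          2 ^ (4 * c) * (65536 * (11 / 10)) ^ m := by
        rw [h10]
        calc (T : ℝ) ^ 5 * 2 ^ (10 * (m / 100)) < 2 ^ (16 * m + 4 * c) * 2 ^ (10 * (m / 100)) :=
              mul_lt_mul_of_pos_right h9 (by positivity)
          _ ≤ 2 ^ (16 * m + 4 * c) * (11 / 10) ^ m :=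
              mul_le_mul_of_nonneg_left h7 (by positivity)
          _ = _ := by
              rw [pow_add, pow_mul, mul_pow]
              norm_num
              ring
      have h12 : (2 ^ (4 * c) * (65536 * (11 / 10)) ^ m : ℝ) * (m * (64 / 27)) ^ 5 ≤
          (((4 * m).choose m : ℕ) : ℝ) ^ 5 * (m * (64 / 27)) ^ 5 := by
        have h13 : ((256 / 27 : ℝ) ^ m) ^ 5 = ((256 / 27) ^ 5) ^ m := by
          rw [← pow_mul, ← pow_mul, mul_comm]
        rw [h13, mul_pow (((4 * m).choose m : ℕ) : ℝ)] at h6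
        refine le_trans ?_ h6
        refine le_trans (le_of_eq ?_) h5.le
        rw [mul_pow (m : ℝ)]
        ring
      have h14 : (0 : ℝ) < (m * (64 / 27)) ^ 5 := by positivity
      exact lt_of_lt_of_le h11 (le_of_mul_le_mul_right h12 h14)
    have := lt_of_pow_lt_pow_left₀ 5 (by positivity) h8
    exact_mod_cast this

/-- **Lower bound.** If a sentence has an infinite model, then every Extended Frege refutation of
its translation has a line or a subformula with at least `2 ^ (4 q / 5)` images under the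
permutations of any given `q` elements. -/
theorem lower {L : FirstOrder.Language.{0, 0}} [L.IsRelational] (Ψ : L.Sentence) (M : Type)
    [L.Structure M] [Infinite M] (hM : M ⊨ Ψ) :
    ∃ q₀ : ℕ, ∀ (n : ℕ) (Q : Finset (Fin n)), q₀ ≤ Q.card →
      ∀ (m T : ℕ) (D : Fin m → Fm (Atom L n ⊕ Fin m)) (E : Fin m → Fm (Atom L n))
      (P : List (List (Fm (Atom L n ⊕ Fin m)))),
      IsRefutation (translation Ψ n) D P → (∀ i, E i = subst E (D i)) → Symmetric Q T E P →
      2 ^ (4 * Q.card) ≤ T ^ 5 := by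
  obtain ⟨n₀, hn₀⟩ := exists_numbers (wd Ψ)
  refine ⟨n₀, fun n Q hn m T D E P hP hE hS => ?_⟩
  by_contra hcon
  push Not at hcon
  obtain ⟨b, r, h1, h2, h3, h4, h5⟩ := hn₀ Q.card hn T hcon
  refine not_refutation (M := M) (Q := Q) (r := r) h3 hP hE ?_ ?_
  · intro Γ hΓ B hB
    exact nice_of_few (hS Γ hΓ B hB) h1 h2 (by omega)
  · intro hnice
    exact valid_translation h3 Ψ hM h4 h5 hnice

end Pool.Agent.Lib.MP_e81270_lc_Gap
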