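import Pool.Agent.Lib.MP_e81270_lc_Gap.Rules

/-!
# A sentence without a short refutation has an infinite model
-/

set_option autoImplicit false
set_option linter.unusedSectionVars false
set_option linter.unusedVariables false

namespace Pool.Agent.Lib.MP_e81270_lc_Gap

open FirstOrder Equiv Equiv.Perm

section
variable {L : FirstOrder.Language.{0, 0}} [L.IsRelational] {Ψ : L.Sentence} {m : ℕ}
  {Γ : List (Cl L)} {k : ℕ}

/-- what has to be done for a signed formula -/
def Ful (c : Cl L) (j m : ℕ) (Γ' : List (Cl L)) : Prop :=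
  (∀ k (φ ψ : L.BoundedFormula Empty k) v, c = ⟨k, .imp φ ψ, v, true⟩ →
    (⟨k, φ, v, false⟩ : Cl L) ∈ Γ' ∨ (⟨k, ψ, v, true⟩ : Cl L) ∈ Γ') ∧
  (∀ k (φ ψ : L.BoundedFormula Empty k) v, c = ⟨k, .imp φ ψ, v, false⟩ →
    (⟨k, φ, v, true⟩ : Cl L) ∈ Γ' ∧ (⟨k, ψ, v, false⟩ : Cl L) ∈ Γ') ∧
  (∀ k (φ : L.BoundedFormula Empty (k + 1)) v, c = ⟨k, .all φ, v, true⟩ →
    j < m → (⟨k + 1, φ, Fin.snoc v j, true⟩ : Cl L) ∈ Γ') ∧
  (∀ k (φ : L.BoundedFormula Empty (k + 1)) v, c = ⟨k, .all φ, v, false⟩ →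
    ∃ i : ℕ, (⟨k + 1, φ, Fin.snoc v i, false⟩ : Cl L) ∈ Γ')

variable (Ψ) in
/-- a state of the construction -/
def Bad (s : ℕ × List (Cl L)) : Prop := ¬ Ref Ψ s.1 s.2 ∧ NL s.1 s.2

lemma nl_cons {c : Cl L} (h : NL m Γ) (hc : ∀ i, c.2.2.1 i < m) : NL m (c :: Γ) := by
  intro d hd
  rcases List.mem_cons.1 hd with rfl | hd
  · exact hc
  · exact h d hd

lemma NL.mono {m' : ℕ} (h : NL m Γ) (hm : m ≤ m') : NL m' Γ :=
  fun c hc i => lt_of_lt_of_le (h c hc i) hm

lemma snoc_lt {v : Fin k → ℕ} {j m : ℕ} (hv : ∀ i, v i < m) (hj : j < m)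
    (i : Fin (k + 1)) : (Fin.snoc v j : Fin (k + 1) → ℕ) i < m := by
  refine Fin.lastCases ?_ (fun i => ?_) i
  · simpa using hj
  · simpa using hv i

lemma exists_step0 (c : Cl L) (j : ℕ) {s : ℕ × List (Cl L)} (hs : Bad Ψ s) :
    ∃ s' : ℕ × List (Cl L), Bad Ψ s' ∧ s.1 ≤ s'.1 ∧ s.2 ⊆ s'.2 ∧
      (c ∈ s.2 → Ful c j s.1 s'.2) := by
  obtain ⟨m, Γ⟩ := s
  obtain ⟨hR, hN⟩ := hs
  simp only at hR hN ⊢
  by_cases hc : c ∈ Γ
  swap
  · exact ⟨(m, Γ), ⟨hR, hN⟩, le_refl _, List.Subset.refl _, fun h => absurd h hc⟩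
  obtain ⟨k, φ, v, b⟩ := c
  have hv : ∀ i, v i < m := hN _ hc
  cases φ with
  | falsum =>
    exact ⟨(m, Γ), ⟨hR, hN⟩, le_refl _, List.Subset.refl _, fun _ =>
      ⟨fun _ _ _ _ he => (by cases he), fun _ _ _ _ he => (by cases he),
        fun _ _ _ he => (by cases he), fun _ _ _ he => (by cases he)⟩⟩
  | equal s t =>
    exact ⟨(m, Γ), ⟨hR, hN⟩, le_refl _, List.Subset.refl _, fun _ =>
      ⟨fun _ _ _ _ he => (by cases he), fun _ _ _ _ he => (by cases he),
        fun _ _ _ he => (by cases he), fun _ _ _ he => (by cases he)⟩⟩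
  | rel R ts =>
    exact ⟨(m, Γ), ⟨hR, hN⟩, le_refl _, List.Subset.refl _, fun _ =>
      ⟨fun _ _ _ _ he => (by cases he), fun _ _ _ _ he => (by cases he),
        fun _ _ _ he => (by cases he), fun _ _ _ he => (by cases he)⟩⟩
  | imp φ ψ =>
    cases b with
    | true =>
      by_cases h1 : Ref Ψ m (⟨k, φ, v, false⟩ :: Γ)
      · have h2 : ¬ Ref Ψ m (⟨k, ψ, v, true⟩ :: Γ) := fun h2 => hR (ref_imp_true hN hc h1 h2)
        exact ⟨(m, ⟨k, ψ, v, true⟩ :: Γ), ⟨h2, nl_cons hN hv⟩, le_refl _,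
          List.subset_cons_self _ _, fun _ =>
          ⟨fun _ _ _ _ he => (by cases he; exact Or.inr List.mem_cons_self),
            fun _ _ _ _ he => (by cases he), fun _ _ _ he => (by cases he),
            fun _ _ _ he => (by cases he)⟩⟩
      · exact ⟨(m, ⟨k, φ, v, false⟩ :: Γ), ⟨h1, nl_cons hN hv⟩, le_refl _,
          List.subset_cons_self _ _, fun _ =>
          ⟨fun _ _ _ _ he => (by cases he; exact Or.inl List.mem_cons_self),
            fun _ _ _ _ he => (by cases he), fun _ _ _ he => (by cases he),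
            fun _ _ _ he => (by cases he)⟩⟩
    | false =>
      have h1 : ¬ Ref Ψ m (⟨k, φ, v, true⟩ :: ⟨k, ψ, v, false⟩ :: Γ) :=
        fun h1 => hR (ref_imp_false hN hc h1)
      exact ⟨(m, ⟨k, φ, v, true⟩ :: ⟨k, ψ, v, false⟩ :: Γ),
        ⟨h1, nl_cons (nl_cons hN hv) hv⟩, le_refl _,
        fun x hx => List.mem_cons_of_mem _ (List.mem_cons_of_mem _ hx), fun _ =>
        ⟨fun _ _ _ _ he => (by cases he),
          fun _ _ _ _ he => (by
            cases he
            exact ⟨List.mem_cons_self, List.mem_cons_of_mem _ List.mem_cons_self⟩),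
          fun _ _ _ he => (by cases he), fun _ _ _ he => (by cases he)⟩⟩
  | all φ =>
    cases b with
    | true =>
      by_cases hj : j < m
      · have h1 : ¬ Ref Ψ m (⟨k + 1, φ, Fin.snoc v j, true⟩ :: Γ) :=
          fun h1 => hR (ref_all_true j hN hc h1)
        exact ⟨(m, ⟨k + 1, φ, Fin.snoc v j, true⟩ :: Γ),
          ⟨h1, nl_cons hN (snoc_lt hv hj)⟩, le_refl _, List.subset_cons_self _ _, fun _ =>
          ⟨fun _ _ _ _ he => (by cases he), fun _ _ _ _ he => (by cases he),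
            fun _ _ _ he _ => (by cases he; exact List.mem_cons_self),
            fun _ _ _ he => (by cases he)⟩⟩
      · exact ⟨(m, Γ), ⟨hR, hN⟩, le_refl _, List.Subset.refl _, fun _ =>
          ⟨fun _ _ _ _ he => (by cases he), fun _ _ _ _ he => (by cases he),
            fun _ _ _ _ hj' => absurd hj' hj, fun _ _ _ he => (by cases he)⟩⟩
    | false =>
      by_cases h1 : ∀ j < m, Ref Ψ m (⟨k + 1, φ, Fin.snoc v j, false⟩ :: Γ)
      · have h2 : ¬ Ref Ψ (m + 1) (⟨k + 1, φ, Fin.snoc v m, false⟩ :: Γ) :=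
          fun h2 => hR (ref_all_false hN hc h1 h2)
        exact ⟨(m + 1, ⟨k + 1, φ, Fin.snoc v m, false⟩ :: Γ),
          ⟨h2, nl_cons (hN.mono (Nat.le_succ m)) (snoc_lt (fun i => (hv i).trans
            (Nat.lt_succ_self m)) (Nat.lt_succ_self m))⟩, Nat.le_succ m,
          List.subset_cons_self _ _, fun _ =>
          ⟨fun _ _ _ _ he => (by cases he), fun _ _ _ _ he => (by cases he),
            fun _ _ _ he => (by cases he),
            fun _ _ _ he => (by cases he; exact ⟨m, List.mem_cons_self⟩)⟩⟩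
      · push Not at h1
        obtain ⟨i, hi, h1⟩ := h1
        exact ⟨(m, ⟨k + 1, φ, Fin.snoc v i, false⟩ :: Γ),
          ⟨h1, nl_cons hN (snoc_lt hv hi)⟩, le_refl _, List.subset_cons_self _ _, fun _ =>
          ⟨fun _ _ _ _ he => (by cases he), fun _ _ _ _ he => (by cases he),
            fun _ _ _ he => (by cases he),
            fun _ _ _ he => (by cases he; exact ⟨i, List.mem_cons_self⟩)⟩⟩

lemma exists_step (c : Cl L) (j : ℕ) (s : {s : ℕ × List (Cl L) // Bad Ψ s}) :
    ∃ s' : {s : ℕ × List (Cl L) // Bad Ψ s}, s.1.1 < s'.1.1 ∧ s.1.2 ⊆ s'.1.2 ∧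
      (c ∈ s.1.2 → Ful c j s.1.1 s'.1.2) := by
  obtain ⟨s', h1, h2, h3, h4⟩ := exists_step0 c j s.2
  refine ⟨⟨(s'.1 + 1, s'.2), ?_, h1.2.mono (Nat.le_succ _)⟩, Nat.lt_succ_of_le h2, h3, h4⟩
  intro h5
  exact h1.1 (ref_fresh h5 h1.2)

/-- the structure given by a set of signed formulas -/
@[instance_reducible] def str (G : Set (Cl L)) : L.Structure ℕ where
  funMap := fun f _ => isEmptyElim f
  RelMap := fun {r} R x => ∃ (k : ℕ) (ts : Fin r → L.Term (Empty ⊕ Fin k)) (v : Fin k → ℕ),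
    (⟨k, .rel R ts, v, true⟩ : Cl L) ∈ G ∧
      ∀ i, Sum.elim Empty.elim v (varOf (ts i)) = x i

end

section
variable {L : FirstOrder.Language.{0, 0}} [L.IsRelational] [Countable L.Symbols]

instance : Countable (Cl L) := by
  have hk : ∀ k, Countable (L.BoundedFormula Empty k) := fun k =>
    (show Function.Injective (fun φ : L.BoundedFormula Empty k =>
      (⟨k, φ⟩ : Σ n, L.BoundedFormula Empty n)) from sigma_mk_injective).countable
  infer_instance

/-- a sentence without a short refutation has a model with the set `ℕ` -/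
theorem exists_model (Ψ : L.Sentence) (h : ¬ Ref Ψ 0 []) :
    ∃ _ : L.Structure ℕ, ℕ ⊨ Ψ := by
  classical
  have h0 : Bad Ψ (0, [⟨0, Ψ, Fin.elim0, true⟩]) := by
    refine ⟨fun h1 => h (ref_ax (fun c hc => absurd hc List.not_mem_nil) h1), ?_⟩
    intro c hc i
    rw [List.mem_singleton] at hc
    subst hc
    exact i.elim0
  have : Nonempty (Cl L × ℕ × ℕ) := ⟨(⟨0, Ψ, Fin.elim0, true⟩, 0, 0)⟩
  obtain ⟨e, he⟩ := exists_surjective_nat (Cl L × ℕ × ℕ)
  choose nx hx1 hx2 hx3 using fun (c : Cl L) (j : ℕ) (s : {s // Bad Ψ s}) => exists_step c j s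
  let st : ℕ → {s // Bad Ψ s} := fun t =>
    Nat.rec ⟨_, h0⟩ (fun t s => nx (e t).1 (e t).2.1 s) t
  have st_succ : ∀ t, st (t + 1) = nx (e t).1 (e t).2.1 (st t) := fun t => rfl
  have hlt : ∀ t, (st t).1.1 < (st (t + 1)).1.1 := fun t => by
    rw [st_succ]; exact hx1 _ _ _
  have hsub : ∀ t, (st t).1.2 ⊆ (st (t + 1)).1.2 := fun t => by
    rw [st_succ]; exact hx2 _ _ _
  have hle : ∀ t, t ≤ (st t).1.1 := by
    intro t
    induction t with
    | zero => exact Nat.zero_le _
    | succ t ih => exact Nat.succ_le_of_lt (lt_of_le_of_lt ih (hlt t))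
  have hmono : ∀ s t, s ≤ t → (st s).1.2 ⊆ (st t).1.2 := by
    intro s t hst
    induction t, hst using Nat.le_induction with
    | base => exact List.Subset.refl _
    | succ t _ ih => exact List.Subset.trans ih (hsub t)
  let G : Set (Cl L) := {c | ∃ t, c ∈ (st t).1.2}
  -- every requirement is fulfilled at arbitrarily late stages
  have hful : ∀ c j t₀, ∃ t, t₀ ≤ t ∧ (c ∈ (st t).1.2 → Ful c j (st t).1.1 (st (t + 1)).1.2) := by
    intro c j t₀
    choose g hg using fun l : ℕ => he (c, j, l)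
    have hinj : Function.Injective g := by
      intro l l' hl
      have h1 : ((c, j, l) : Cl L × ℕ × ℕ) = (c, j, l') := by rw [← hg l, ← hg l', hl]
      simpa using h1
    obtain ⟨l, hl⟩ : ∃ l, t₀ ≤ g l := by
      by_contra hcon
      push Not at hcon
      have : Set.range g ⊆ Set.Iio t₀ := by
        rintro _ ⟨l, rfl⟩
        exact hcon l
      exact Set.infinite_range_of_injective hinj ((Set.finite_Iio t₀).subset this)
    refine ⟨g l, hl, fun hc => ?_⟩
    have h2 := hx3 (e (g l)).1 (e (g l)).2.1 (st (g l))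
    rw [← st_succ, hg l] at h2
    exact h2 hc
  have hboth : ∀ c d : Cl L, c ∈ G → d ∈ G → ∃ t, c ∈ (st t).1.2 ∧ d ∈ (st t).1.2 := by
    rintro c d ⟨s, hs⟩ ⟨t, ht⟩
    exact ⟨max s t, hmono s _ (le_max_left _ _) hs, hmono t _ (le_max_right _ _) ht⟩
  let S : L.Structure ℕ := str G
  have truth : ∀ (k : ℕ) (φ : L.BoundedFormula Empty k) (v : Fin k → ℕ) (w : Empty → ℕ),
      ((⟨k, φ, v, true⟩ : Cl L) ∈ G → φ.Realize w v) ∧
      ((⟨k, φ, v, false⟩ : Cl L) ∈ G → ¬ φ.Realize w v) := by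
    intro k φ
    induction φ with
    | falsum =>
      intro v w
      refine ⟨?_, fun _ h => h⟩
      rintro ⟨t, ht⟩
      exact absurd (ref_falsum (st t).2.2 ht) (st t).2.1
    | @equal k s t =>
      intro v w
      have hr : (Language.BoundedFormula.equal s t).Realize w v ↔
          Sum.elim Empty.elim v (varOf s) = Sum.elim Empty.elim v (varOf t) := by
        show s.realize _ = t.realize _ ↔ _
        rw [realize_varOf, realize_varOf]
        have e : ∀ x : Empty ⊕ Fin k, Sum.elim w v x = Sum.elim Empty.elim v x := by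
          rintro (x | x)
          · exact x.elim
          · rfl
        rw [e, e]
      rw [hr]
      constructor
      · rintro ⟨t', ht⟩
        by_contra hne
        exact absurd (ref_eq_true (st t').2.2 ht hne) (st t').2.1
      · rintro ⟨t', ht⟩ he
        exact absurd (ref_eq_false (st t').2.2 ht he) (st t').2.1
    | @rel k r R ts =>
      intro v w
      have e : ∀ x : Empty ⊕ Fin k, Sum.elim w v x = Sum.elim Empty.elim v x := by
        rintro (x | x)
        · exact x.elim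
        · rfl
      have hr : (Language.BoundedFormula.rel R ts).Realize w v ↔
          ∃ (k' : ℕ) (ts' : Fin r → L.Term (Empty ⊕ Fin k')) (v' : Fin k' → ℕ),
            (⟨k', .rel R ts', v', true⟩ : Cl L) ∈ G ∧
            ∀ i, Sum.elim Empty.elim v' (varOf (ts' i)) =
              Sum.elim Empty.elim v (varOf (ts i)) := by
        have : (fun i => (ts i).realize (Sum.elim w v)) =
            fun i => Sum.elim Empty.elim v (varOf (ts i)) :=
          funext fun i => by rw [realize_varOf, e]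
        show Language.Structure.RelMap R (fun i => (ts i).realize (Sum.elim w v)) ↔ _
        rw [this]
        exact Iff.rfl
      rw [hr]
      constructor
      · intro hG
        exact ⟨k, ts, v, hG, fun _ => rfl⟩
      · rintro hG ⟨k', ts', v', hG', he⟩
        obtain ⟨t, h1, h2⟩ := hboth _ _ hG' hG
        refine absurd (ref_pair (st t).2.2 h1 h2 fun n a => ?_) (st t).2.1
        rw [trans, trans]
        have : (fun i => Sum.elim Empty.elim (a ∘ v') (varOf (ts' i))) =
            fun i => Sum.elim Empty.elim (a ∘ v) (varOf (ts i)) := by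
          funext i
          have e1 : ∀ x : Empty ⊕ Fin k', Sum.elim Empty.elim (a ∘ v') x =
              a (Sum.elim Empty.elim v' x) := by
            rintro (x | x)
            · exact x.elim
            · rfl
          have e2 : ∀ x : Empty ⊕ Fin k, Sum.elim Empty.elim (a ∘ v) x =
              a (Sum.elim Empty.elim v x) := by
            rintro (x | x)
            · exact x.elim
            · rfl
          rw [e1, e2, he]
        rw [this]
    | @imp k φ ψ h1 h2 =>
      intro v w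
      constructor
      · rintro ⟨t₀, ht₀⟩ hφ
        obtain ⟨t, ht, hF⟩ := hful ⟨k, .imp φ ψ, v, true⟩ 0 t₀
        rcases (hF (hmono t₀ t ht ht₀)).1 _ _ _ _ rfl with h3 | h3
        · exact absurd hφ ((h1 v w).2 ⟨t + 1, h3⟩)
        · exact (h2 v w).1 ⟨t + 1, h3⟩
      · rintro ⟨t₀, ht₀⟩ himp
        obtain ⟨t, ht, hF⟩ := hful ⟨k, .imp φ ψ, v, false⟩ 0 t₀
        obtain ⟨h3, h4⟩ := (hF (hmono t₀ t ht ht₀)).2.1 _ _ _ _ rfl
        exact (h2 v w).2 ⟨t + 1, h4⟩ (himp ((h1 v w).1 ⟨t + 1, h3⟩))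
    | @all k φ h1 =>
      intro v w
      constructor
      · rintro ⟨t₀, ht₀⟩ j
        obtain ⟨t, ht, hF⟩ := hful ⟨k, .all φ, v, true⟩ j (max t₀ (j + 1))
        have h3 := (hF (hmono t₀ t (le_trans (le_max_left _ _) ht) ht₀)).2.2.1 _ _ _ rfl
          (lt_of_lt_of_le (lt_of_lt_of_le (Nat.lt_succ_self j)
            (le_trans (le_max_right _ _) ht)) (hle t))
        exact (h1 (Fin.snoc v j) w).1 ⟨t + 1, h3⟩
      · rintro ⟨t₀, ht₀⟩ hall
        obtain ⟨t, ht, hF⟩ := hful ⟨k, .all φ, v, false⟩ 0 t₀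
        obtain ⟨i, h3⟩ := (hF (hmono t₀ t ht ht₀)).2.2.2 _ _ _ rfl
        exact (h1 (Fin.snoc v i) w).2 ⟨t + 1, h3⟩ (hall i)
  refine ⟨S, ?_⟩
  have h1 := (truth 0 Ψ Fin.elim0 (@default (Empty → ℕ) Unique.instInhabited)).1 ⟨0, List.mem_singleton_self _⟩
  have e1 : (Fin.elim0 : Fin 0 → ℕ) = @default (Fin 0 → ℕ) Unique.instInhabited :=
    Subsingleton.elim _ _
  rw [e1] at h1
  exact h1

end

end Pool.Agent.Lib.MP_e81270_lc_Gap
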