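import Pool.Agent.Lib.MP_e81270_lc_Gap.Unif
import Pool.Agent.Lib.MP_e81270_lc_Gap.Invar

/-!
# Short invariant derivations: the rules of a tableau calculus
-/

set_option autoImplicit false
set_option linter.unusedSectionVars false
set_option linter.unusedVariables false

namespace Pool.Agent.Lib.MP_e81270_lc_Gap

open FirstOrder Equiv Equiv.Perm

lemma pow_add_pow_le {n : ℕ} (hn : 2 ≤ n) (a b : ℕ) : n ^ a + n ^ b ≤ n ^ (a + b + 1) := by
  have h1 : n ^ a ≤ n ^ (a + b) := Nat.pow_le_pow_right (by omega) (by omega)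
  have h2 : n ^ b ≤ n ^ (a + b) := Nat.pow_le_pow_right (by omega) (by omega)
  rw [pow_succ]
  calc n ^ a + n ^ b ≤ n ^ (a + b) * 2 := by omega
    _ ≤ n ^ (a + b) * n := Nat.mul_le_mul_left _ hn

section
variable {L : FirstOrder.Language.{0, 0}}

/-- the line `Δ` is the image of the line `Γ` -/
def LS {n : ℕ} (π : Perm (Fin n)) (Γ Δ : List (Fm (Atom L n))) : Prop :=
  (∀ A ∈ Γ, ∃ B ∈ Δ, Same (permute π A) B) ∧ ∀ B ∈ Δ, ∃ A ∈ Γ, Same (permute π A) B

lemma LS.cons {n : ℕ} {π : Perm (Fin n)} {Γ Δ : List (Fm (Atom L n))} {A B : Fm (Atom L n)}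
    (h : Same (permute π A) B) (h' : LS π Γ Δ) : LS π (A :: Γ) (B :: Δ) := by
  constructor
  · intro C hC
    rcases List.mem_cons.1 hC with rfl | hC
    · exact ⟨B, List.mem_cons_self, h⟩
    · obtain ⟨D, h1, h2⟩ := h'.1 C hC
      exact ⟨D, List.mem_cons_of_mem _ h1, h2⟩
  · intro C hC
    rcases List.mem_cons.1 hC with rfl | hC
    · exact ⟨A, List.mem_cons_self, h⟩
    · obtain ⟨D, h1, h2⟩ := h'.2 C hC
      exact ⟨D, List.mem_cons_of_mem _ h1, h2⟩

/-- an equivariant family of formulas, which depends on the names `0, ..., m - 1` -/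
def EqA (m : ℕ) (A : (n : ℕ) → (ℕ → Fin n) → Fm (Atom L n)) : Prop :=
  ∀ n (a a' : ℕ → Fin n) (π : Perm (Fin n)), (∀ i < m, a' i = π (a i)) →
    Same (permute π (A n a)) (A n a')

/-- an equivariant family of lines -/
def EqL (m : ℕ) (G : (n : ℕ) → (ℕ → Fin n) → List (Fm (Atom L n))) : Prop :=
  ∀ n (a a' : ℕ → Fin n) (π : Perm (Fin n)), (∀ i < m, a' i = π (a i)) →
    LS π (G n a) (G n a')

lemma EqA.neg {m : ℕ} {A : (n : ℕ) → (ℕ → Fin n) → Fm (Atom L n)} (h : EqA m A) :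
    EqA m fun n a => .neg (A n a) := fun n a a' π hi => h n a a' π hi

lemma EqA.of_neg {m : ℕ} {A : (n : ℕ) → (ℕ → Fin n) → Fm (Atom L n)}
    (h : EqA m fun n a => .neg (A n a)) : EqA m A := fun n a a' π hi => h n a a' π hi

lemma EqL.cons {m : ℕ} {A : (n : ℕ) → (ℕ → Fin n) → Fm (Atom L n)}
    {G : (n : ℕ) → (ℕ → Fin n) → List (Fm (Atom L n))} (h : EqA m A) (h' : EqL m G) :
    EqL m fun n a => A n a :: G n a :=
  fun n a a' π hi => LS.cons (h n a a' π hi) (h' n a a' π hi)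

lemma EqL.nil {m : ℕ} : EqL (L := L) m fun _ _ => [] :=
  fun _ _ _ _ _ => ⟨fun A hA => absurd hA List.not_mem_nil,
    fun A hA => absurd hA List.not_mem_nil⟩

/-- formulas with uniform bounds, equivariant -/
def FU (m : ℕ) (A : (n : ℕ) → (ℕ → Fin n) → Fm (Atom L n)) : Prop := EU A ∧ EqA m A

/-- lines with uniform bounds, equivariant -/
def FL (m : ℕ) (G : (n : ℕ) → (ℕ → Fin n) → List (Fm (Atom L n))) : Prop := EL G ∧ EqL m G

lemma FU.neg {m : ℕ} {A : (n : ℕ) → (ℕ → Fin n) → Fm (Atom L n)} (h : FU m A) :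
    FU m fun n a => .neg (A n a) := ⟨h.1.neg, h.2.neg⟩

lemma FU.of_neg {m : ℕ} {A : (n : ℕ) → (ℕ → Fin n) → Fm (Atom L n)}
    (h : FU m fun n a => .neg (A n a)) : FU m A := ⟨h.1.of_neg, h.2.of_neg⟩

lemma FL.cons {m : ℕ} {A : (n : ℕ) → (ℕ → Fin n) → Fm (Atom L n)}
    {G : (n : ℕ) → (ℕ → Fin n) → List (Fm (Atom L n))} (h : FU m A) (h' : FL m G) :
    FL m fun n a => A n a :: G n a := ⟨EL.cons h.1 h'.1, EqL.cons h.2 h'.2⟩

lemma FL.nil {m : ℕ} : FL (L := L) m fun _ _ => [] := ⟨EL.nil, EqL.nil⟩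

variable [L.IsRelational] (Ψ : L.Sentence)

/-- invariant families of derivations of polynomial size, for injective names `0, ..., m - 1` -/
def Fam (m K : ℕ) (P : (n : ℕ) → (ℕ → Fin n) → List (List (Fm (Atom L n)))) : Prop :=
  ∀ n, K ≤ n → 2 ≤ n →
    (∀ a : ℕ → Fin n, Set.InjOn a (Set.Iio m) →
      IsDerivation (m := 0) (translation Ψ n) Fin.elim0 ((P n a).map lift) ∧
      ((P n a).map lsize).sum ≤ n ^ K ∧ ∀ Δ ∈ P n a, Good K Δ) ∧
    ∀ (a a' : ℕ → Fin n) (π : Perm (Fin n)), (∀ i < m, a' i = π (a i)) →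
      ∀ Δ ∈ P n a, ∃ Δ' ∈ P n a', LS π Δ Δ'

/-- lines with such derivations -/
def PD (m : ℕ) (F : (n : ℕ) → (ℕ → Fin n) → List (Fm (Atom L n))) : Prop :=
  ∃ K P, Fam Ψ m K P ∧ ∀ n, K ≤ n → 2 ≤ n → ∀ a : ℕ → Fin n, Set.InjOn a (Set.Iio m) →
    F n a ∈ P n a

variable {Ψ} {m : ℕ} {F G : (n : ℕ) → (ℕ → Fin n) → List (Fm (Atom L n))}

lemma Fam.mono {K K' : ℕ} {P : (n : ℕ) → (ℕ → Fin n) → List (List (Fm (Atom L n)))}
    (h : Fam Ψ m K P) (hK : K ≤ K') : Fam Ψ m K' P := by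
  intro n hn hn2
  obtain ⟨h1, h2⟩ := h n (by omega) hn2
  refine ⟨fun a ha => ?_, h2⟩
  obtain ⟨h3, h4, h5⟩ := h1 a ha
  exact ⟨h3, h4.trans (Nat.pow_le_pow_right (by omega) hK), fun Δ hΔ => (h5 Δ hΔ).mono hK⟩

lemma Fam.mono_m {K m' : ℕ} {P : (n : ℕ) → (ℕ → Fin n) → List (List (Fm (Atom L n)))}
    (h : Fam Ψ m K P) (hm : m ≤ m') : Fam Ψ m' K P := by
  intro n hn hn2
  obtain ⟨h1, h2⟩ := h n hn hn2
  exact ⟨fun a ha => h1 a (ha.mono fun x hx => lt_of_lt_of_le hx hm),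
    fun a a' π hi => h2 a a' π fun i hi' => hi i (by omega)⟩

lemma fam_nil {m : ℕ} : Fam Ψ m 0 fun _ _ => [] :=
  fun n _ _ => ⟨fun _ _ => ⟨.nil, by simp, fun Δ hΔ => absurd hΔ List.not_mem_nil⟩,
    fun _ _ _ _ Δ hΔ => absurd hΔ List.not_mem_nil⟩

/-- add one line -/
lemma fam_cons {K KG : ℕ} {P : (n : ℕ) → (ℕ → Fin n) → List (List (Fm (Atom L n)))}
    (h : Fam Ψ m K P) (hG : ∀ n, 2 ≤ n → ∀ a, LU KG a (G n a)) (hE : EqL m G)
    (hs : ∀ n, K ≤ n → 2 ≤ n → ∀ a : ℕ → Fin n, Set.InjOn a (Set.Iio m) →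
      Step (m := 0) (translation Ψ n) Fin.elim0 {Δ | Δ ∈ (P n a).map lift} (lift (G n a))) :
    Fam Ψ m (K + (2 * KG + 1) + 1) fun n a => G n a :: P n a := by
  intro n hn hn2
  obtain ⟨h1, h2⟩ := h n (by omega) hn2
  refine ⟨fun a ha => ?_, fun a a' π hi Δ hΔ => ?_⟩
  · obtain ⟨h3, h4, h5⟩ := h1 a ha
    refine ⟨?_, ?_, fun Δ hΔ => ?_⟩
    · rw [List.map_cons]
      exact .cons h3 (hs n (by omega) hn2 a ha)
    · rw [List.map_cons, List.sum_cons]
      have h6 := (hG n hn2 a).lsize_le hn2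
      have h7 := pow_add_pow_le hn2 K (2 * KG + 1)
      omega
    · rcases List.mem_cons.1 hΔ with rfl | hΔ
      · exact (hG n hn2 a).good.mono (by omega)
      · exact (h5 Δ hΔ).mono (by omega)
  · rcases List.mem_cons.1 hΔ with rfl | hΔ
    · exact ⟨G n a', List.mem_cons_self, hE n a a' π hi⟩
    · obtain ⟨Δ', h3, h4⟩ := h2 a a' π hi Δ hΔ
      exact ⟨Δ', List.mem_cons_of_mem _ h3, h4⟩

lemma fam_append {K K' : ℕ} {P P' : (n : ℕ) → (ℕ → Fin n) → List (List (Fm (Atom L n)))}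
    (h : Fam Ψ m K P) (h' : Fam Ψ m K' P') :
    Fam Ψ m (K + K' + 1) fun n a => P n a ++ P' n a := by
  intro n hn hn2
  obtain ⟨h1, h2⟩ := h n (by omega) hn2
  obtain ⟨h1', h2'⟩ := h' n (by omega) hn2
  refine ⟨fun a ha => ?_, fun a a' π hi Δ hΔ => ?_⟩
  · obtain ⟨h3, h4, h5⟩ := h1 a ha
    obtain ⟨h3', h4', h5'⟩ := h1' a ha
    refine ⟨?_, ?_, fun Δ hΔ => ?_⟩
    · rw [List.map_append]
      exact h3.append h3'
    · rw [List.map_append, List.sum_append]
      have h7 := pow_add_pow_le hn2 K K'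
      omega
    · rcases List.mem_append.1 hΔ with hΔ | hΔ
      · exact (h5 Δ hΔ).mono (by omega)
      · exact (h5' Δ hΔ).mono (by omega)
  · rcases List.mem_append.1 hΔ with hΔ | hΔ
    · obtain ⟨Δ', h3, h4⟩ := h2 a a' π hi Δ hΔ
      exact ⟨Δ', List.mem_append_left _ h3, h4⟩
    · obtain ⟨Δ', h3, h4⟩ := h2' a a' π hi Δ hΔ
      exact ⟨Δ', List.mem_append_right _ h3, h4⟩

/-- put the derivations for all elements together -/
lemma fam_flat {K : ℕ} {P : (n : ℕ) → (ℕ → Fin n) → Fin n → List (List (Fm (Atom L n)))}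
    (h : ∀ n, K ≤ n → 2 ≤ n →
      (∀ a : ℕ → Fin n, Set.InjOn a (Set.Iio m) → ∀ u,
        IsDerivation (m := 0) (translation Ψ n) Fin.elim0 ((P n a u).map lift) ∧
        ((P n a u).map lsize).sum ≤ n ^ K ∧ ∀ Δ ∈ P n a u, Good K Δ) ∧
      ∀ (a a' : ℕ → Fin n) (π : Perm (Fin n)), (∀ i < m, a' i = π (a i)) → ∀ u,
        ∀ Δ ∈ P n a u, ∃ Δ' ∈ P n a' (π u), LS π Δ Δ') :
    Fam Ψ m (K + 1) fun n a => (List.finRange n).flatMap (P n a) := by
  intro n hn hn2
  obtain ⟨h1, h2⟩ := h n (by omega) hn2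
  refine ⟨fun a ha => ?_, fun a a' π hi Δ hΔ => ?_⟩
  · have key : ∀ l : List (Fin n),
        IsDerivation (m := 0) (translation Ψ n) Fin.elim0 ((l.flatMap (P n a)).map lift) ∧
        ((l.flatMap (P n a)).map lsize).sum ≤ l.length * n ^ K ∧
        ∀ Δ ∈ l.flatMap (P n a), Good K Δ := by
      intro l
      induction l with
      | nil => exact ⟨.nil, by simp, fun Δ hΔ => absurd hΔ List.not_mem_nil⟩
      | cons u l ih =>
        obtain ⟨h3, h4, h5⟩ := ih
        obtain ⟨h3', h4', h5'⟩ := h1 a ha u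
        rw [List.flatMap_cons]
        refine ⟨?_, ?_, fun Δ hΔ => ?_⟩
        · rw [List.map_append]
          exact h3'.append h3
        · rw [List.map_append, List.sum_append, List.length_cons, Nat.add_mul, one_mul]
          omega
        · rcases List.mem_append.1 hΔ with hΔ | hΔ
          · exact h5' Δ hΔ
          · exact h5 Δ hΔ
    obtain ⟨h3, h4, h5⟩ := key (List.finRange n)
    refine ⟨h3, ?_, fun Δ hΔ => (h5 Δ hΔ).mono (Nat.le_succ K)⟩
    rw [List.length_finRange] at h4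
    rw [pow_succ, mul_comm]
    exact h4
  · obtain ⟨u, -, hu⟩ := List.mem_flatMap.1 hΔ
    obtain ⟨Δ', h3, h4⟩ := h2 a a' π hi u Δ hu
    exact ⟨Δ', List.mem_flatMap.2 ⟨π u, List.mem_finRange _, h3⟩, h4⟩

lemma PD.weak (h : PD Ψ m F) {m' : ℕ} (hG : FL m' G) (hs : ∀ n a, F n a ⊆ G n a)
    (hm : m ≤ m') : PD Ψ m' G := by
  obtain ⟨K, P, h, hF⟩ := h
  obtain ⟨⟨KG, hG⟩, hE⟩ := hG
  refine ⟨_, _, fam_cons (h.mono_m hm) hG hE fun n hn hn2 a ha => ?_,
    fun n hn hn2 a ha => List.mem_cons_self⟩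
  exact .weak (Γ := lift (F n a)) (List.mem_map_of_mem
    (hF n hn hn2 a (ha.mono fun x hx => lt_of_lt_of_le hx hm))) (List.map_subset _ (hs n a))

lemma PD.dneg {A : (n : ℕ) → (ℕ → Fin n) → Fm (Atom L n)}
    (h : PD Ψ m fun n a => A n a :: G n a)
    (hG : FL m fun n a => .neg (.neg (A n a)) :: G n a) :
    PD Ψ m fun n a => .neg (.neg (A n a)) :: G n a := by
  obtain ⟨K, P, h, hF⟩ := h
  obtain ⟨⟨KG, hG⟩, hE⟩ := hG
  refine ⟨_, _, fam_cons h hG hE fun n hn hn2 a ha => ?_,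
    fun n hn hn2 a ha => List.mem_cons_self⟩
  exact .dneg (Γ := lift (G n a)) (List.mem_map_of_mem (f := lift) (hF n hn hn2 a ha))

lemma PD.or {k : ℕ → ℕ} {f : (n : ℕ) → (ℕ → Fin n) → Fin (k n) → Fm (Atom L n)}
    (i : (n : ℕ) → (ℕ → Fin n) → Fin (k n))
    (h : PD Ψ m fun n a => f n a (i n a) :: G n a)
    (hG : FL m fun n a => .or (k n) (f n a) :: G n a) :
    PD Ψ m fun n a => .or (k n) (f n a) :: G n a := by
  obtain ⟨K, P, h, hF⟩ := h
  obtain ⟨⟨KG, hG⟩, hE⟩ := hG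
  refine ⟨_, _, fam_cons h hG hE fun n hn hn2 a ha => ?_,
    fun n hn hn2 a ha => List.mem_cons_self⟩
  exact .orIntro (f := fun j => (f n a j).rename .inl) (Γ := lift (G n a)) (i n a)
    (List.mem_map_of_mem (f := lift) (hF n hn hn2 a ha))

lemma PD.cut {A : (n : ℕ) → (ℕ → Fin n) → Fm (Atom L n)}
    (h : PD Ψ m fun n a => A n a :: G n a) (h' : PD Ψ m fun n a => .neg (A n a) :: G n a)
    (hG : FL m G) : PD Ψ m G := by
  obtain ⟨K, P, h, hF⟩ := h
  obtain ⟨K', P', h', hF'⟩ := h'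
  obtain ⟨⟨KG, hG⟩, hE⟩ := hG
  refine ⟨_, _, fam_cons (fam_append h h') hG hE fun n hn hn2 a ha => ?_,
    fun n hn hn2 a ha => List.mem_cons_self⟩
  refine .cut (A := (A n a).rename .inl) ?_ ?_
  · exact List.mem_map_of_mem (f := lift)
      (List.mem_append_left (P' n a) (hF n (by omega) hn2 a ha))
  · exact List.mem_map_of_mem (f := lift)
      (List.mem_append_right (P n a) (hF' n (by omega) hn2 a ha))

/-- the negation of a disjunction of two formulas -/
lemma PD.nor2 {A B : (n : ℕ) → (ℕ → Fin n) → Fm (Atom L n)}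
    (h : PD Ψ m fun n a => .neg (A n a) :: G n a) (h' : PD Ψ m fun n a => .neg (B n a) :: G n a)
    (hG : FL m fun n a => .neg (.or 2 ![A n a, B n a]) :: G n a) :
    PD Ψ m fun n a => .neg (.or 2 ![A n a, B n a]) :: G n a := by
  obtain ⟨K, P, h, hF⟩ := h
  obtain ⟨K', P', h', hF'⟩ := h'
  obtain ⟨⟨KG, hG⟩, hE⟩ := hG
  refine ⟨_, _, fam_cons (fam_append h h') hG hE fun n hn hn2 a ha => ?_,
    fun n hn hn2 a ha => List.mem_cons_self⟩
  refine .norIntro (f := fun i => (![A n a, B n a] i).rename .inl) (Γ := lift (G n a))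
    fun i => ?_
  fin_cases i
  · exact List.mem_map_of_mem (f := lift)
      (List.mem_append_left (P' n a) (hF n (by omega) hn2 a ha))
  · exact List.mem_map_of_mem (f := lift)
      (List.mem_append_right (P n a) (hF' n (by omega) hn2 a ha))

/-- a rule without premises -/
lemma pd_axiom (hG : FL m G) (hs : ∀ n (a : ℕ → Fin n),
    Step (m := 0) (translation Ψ n) Fin.elim0 ∅ (lift (G n a))) : PD Ψ m G := by
  obtain ⟨⟨KG, hG⟩, hE⟩ := hG
  exact ⟨_, _, fam_cons fam_nil hG hE fun n hn hn2 a ha =>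
    (hs n a).mono (Set.empty_subset _), fun n hn hn2 a ha => List.mem_cons_self⟩

/-- signed formulas with names for the free variables -/
abbrev Cl (L : FirstOrder.Language.{0, 0}) : Type :=
  Σ k : ℕ, L.BoundedFormula Empty k × (Fin k → ℕ) × Bool

/-- the formula which represents a signed formula in a line -/
def fm {n : ℕ} (a : ℕ → Fin n) (c : Cl L) : Fm (Atom L n) :=
  if c.2.2.2 = true then .neg (trans c.2.1 (a ∘ c.2.2.1)) else trans c.2.1 (a ∘ c.2.2.1)

lemma fm_true {n k : ℕ} (a : ℕ → Fin n) (φ : L.BoundedFormula Empty k) (v : Fin k → ℕ) :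
    fm a ⟨k, φ, v, true⟩ = .neg (trans φ (a ∘ v)) := rfl

lemma fm_false {n k : ℕ} (a : ℕ → Fin n) (φ : L.BoundedFormula Empty k) (v : Fin k → ℕ) :
    fm a ⟨k, φ, v, false⟩ = trans φ (a ∘ v) := rfl

lemma fu_trans {k : ℕ} (φ : L.BoundedFormula Empty k) {v : Fin k → ℕ} (hv : ∀ i, v i < m) :
    FU m fun n a => trans φ (a ∘ v) := by
  refine ⟨eu_trans φ v, fun n a a' π hi => ?_⟩
  have h := permute_trans φ (a ∘ v) π
  have : π ∘ (a ∘ v) = a' ∘ v := funext fun i => (hi _ (hv i)).symm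
  rwa [this] at h

lemma fu_fm (c : Cl L) (hc : ∀ i, c.2.2.1 i < m) : FU m fun n a => fm a c := by
  obtain ⟨k, φ, v, b⟩ := c
  cases b
  · exact fu_trans φ hc
  · exact (fu_trans φ hc).neg

/-- all names are smaller than `m` -/
def NL (m : ℕ) (Γ : List (Cl L)) : Prop := ∀ c ∈ Γ, ∀ i, c.2.2.1 i < m

lemma fl_map {Γ : List (Cl L)} (hΓ : NL m Γ) : FL m fun n a => Γ.map (fm a) := by
  induction Γ with
  | nil => exact FL.nil
  | cons c Γ ih =>
    exact FL.cons (fu_fm c (hΓ c List.mem_cons_self))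
      (ih fun d hd => hΓ d (List.mem_cons_of_mem _ hd))

variable (Ψ) in
/-- a set of signed formulas with a short refutation -/
def Ref (m : ℕ) (Γ : List (Cl L)) : Prop := PD Ψ m fun n a => Γ.map (fm a)

variable {Γ : List (Cl L)} {k : ℕ}

lemma fm_mem {n : ℕ} (a : ℕ → Fin n) {c : Cl L} (h : c ∈ Γ) : fm a c ∈ Γ.map (fm a) :=
  List.mem_map_of_mem h

lemma fu_or0 : FU (L := L) m fun _ _ => .or 0 Fin.elim0 :=
  ⟨⟨1, fun n hn a => ⟨SU_or0 hn _, Local.or fun i => i.elim0⟩⟩,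
    fun _ _ _ _ _ => ⟨fun i => i.elim0, fun i => i.elim0⟩⟩

lemma pd_top : PD Ψ m fun _ _ => [.neg (.or 0 Fin.elim0)] :=
  pd_axiom (FL.cons fu_or0.neg FL.nil) fun n a =>
    .norIntro (f := fun i => (Fin.elim0 (α := Fm (Atom L n)) i).rename .inl) (Γ := [])
      fun i => i.elim0

lemma pd_middle {A : (n : ℕ) → (ℕ → Fin n) → Fm (Atom L n)} (hA : FU m A) :
    PD Ψ m fun n a => [A n a, .neg (A n a)] :=
  pd_axiom (FL.cons hA (FL.cons hA.neg FL.nil)) fun n a => .middle _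

lemma pd_ax (hA : FU m fun n _ => translation Ψ n) :
    PD Ψ m fun n _ => [translation Ψ n] :=
  pd_axiom (FL.cons hA FL.nil) fun n a => .ax

lemma ref_falsum {v : Fin k → ℕ} (hΓ : NL m Γ) (h : (⟨k, .falsum, v, true⟩ : Cl L) ∈ Γ) :
    Ref Ψ m Γ := by
  refine PD.weak pd_top (fl_map hΓ) (fun n a => ?_) (le_refl m)
  intro A hA
  rw [List.mem_singleton] at hA
  subst hA
  exact fm_mem a h

lemma ref_pair {l : ℕ} {φ : L.BoundedFormula Empty k} {v : Fin k → ℕ}
    {ψ : L.BoundedFormula Empty l} {w : Fin l → ℕ} (hΓ : NL m Γ)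
    (h : (⟨k, φ, v, true⟩ : Cl L) ∈ Γ) (h' : (⟨l, ψ, w, false⟩ : Cl L) ∈ Γ)
    (he : ∀ n (a : ℕ → Fin n), trans φ (a ∘ v) = trans ψ (a ∘ w)) : Ref Ψ m Γ := by
  refine PD.weak (pd_middle (fu_trans ψ (hΓ _ h'))) (fl_map hΓ) (fun n a => ?_) (le_refl m)
  intro A hA
  rw [List.mem_cons, List.mem_singleton] at hA
  rcases hA with rfl | rfl
  · exact fm_mem a h'
  · have := fm_mem a h
    rw [fm_true, he n a] at this
    exact this

lemma elim_name {n : ℕ} (a : ℕ → Fin n) (v : Fin k → ℕ) (x : Empty ⊕ Fin k) :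
    Sum.elim Empty.elim (a ∘ v) x = a (Sum.elim Empty.elim v x) := by
  rcases x with x | x
  · exact x.elim
  · rfl

lemma ref_eq_false {s t : L.Term (Empty ⊕ Fin k)} {v : Fin k → ℕ} (hΓ : NL m Γ)
    (h : (⟨k, .equal s t, v, false⟩ : Cl L) ∈ Γ)
    (he : Sum.elim Empty.elim v (varOf s) = Sum.elim Empty.elim v (varOf t)) :
    Ref Ψ m Γ := by
  refine PD.weak pd_top (fl_map hΓ) (fun n a => ?_) (le_refl m)
  intro A hA
  rw [List.mem_singleton] at hA
  subst hA
  have h1 := fm_mem a h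
  have h2 : Sum.elim Empty.elim (a ∘ v) (varOf s) = Sum.elim Empty.elim (a ∘ v) (varOf t) := by
    rw [elim_name, elim_name, he]
  rw [fm_false, trans, if_pos h2] at h1
  exact h1

lemma ref_eq_true {s t : L.Term (Empty ⊕ Fin k)} {v : Fin k → ℕ} (hΓ : NL m Γ)
    (h : (⟨k, .equal s t, v, true⟩ : Cl L) ∈ Γ)
    (he : Sum.elim Empty.elim v (varOf s) ≠ Sum.elim Empty.elim v (varOf t)) :
    Ref Ψ m Γ := by
  have hv : ∀ i, v i < m := hΓ _ h
  obtain ⟨K, P, hP, hF⟩ : PD Ψ m fun _ _ => [.neg (.or 0 Fin.elim0)] := pd_top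
  obtain ⟨⟨KG, hG⟩, hE⟩ := fl_map hΓ
  refine ⟨_, _, fam_cons hP hG hE fun n hn hn2 a ha => ?_,
    fun n hn hn2 a ha => List.mem_cons_self⟩
  refine .weak (Γ := lift [.neg (.or 0 Fin.elim0)]) (List.mem_map_of_mem
    (hF n hn hn2 a ha)) (List.map_subset _ ?_)
  intro A hA
  rw [List.mem_singleton] at hA
  subst hA
  have h3 := fm_mem a h
  have h4 : ¬ Sum.elim Empty.elim (a ∘ v) (varOf s) =
      Sum.elim Empty.elim (a ∘ v) (varOf t) := by
    have e2 : ∀ x : Empty ⊕ Fin k, Sum.elim Empty.elim v x ∈ Set.Iio m := by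
      rintro (x | x)
      · exact x.elim
      · exact hv x
    rw [elim_name, elim_name]
    intro h5
    exact he (ha (e2 _) (e2 _) h5)
  rw [fm_true, trans, if_neg h4] at h3
  exact h3

lemma ref_imp_true {φ ψ : L.BoundedFormula Empty k} {v : Fin k → ℕ} (hΓ : NL m Γ)
    (h : (⟨k, .imp φ ψ, v, true⟩ : Cl L) ∈ Γ)
    (h1 : Ref Ψ m (⟨k, φ, v, false⟩ :: Γ)) (h2 : Ref Ψ m (⟨k, ψ, v, true⟩ :: Γ)) :
    Ref Ψ m Γ := by
  have hv : ∀ i, v i < m := hΓ _ h
  have h1 : PD Ψ m fun n a => trans φ (a ∘ v) :: Γ.map (fm a) := h1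
  have h2 : PD Ψ m fun n a => .neg (trans ψ (a ∘ v)) :: Γ.map (fm a) := h2
  have h3 := h1.dneg (FL.cons (fu_trans φ hv).neg.neg (fl_map hΓ))
  have hi := (fu_trans (.imp φ ψ) hv).neg
  have h4 : PD Ψ m fun n a => .neg (.or 2 ![.neg (trans φ (a ∘ v)), trans ψ (a ∘ v)]) ::
      Γ.map (fm a) := PD.nor2 h3 h2 (FL.cons hi (fl_map hΓ))
  refine h4.weak (fl_map hΓ) (fun n a => ?_) (le_refl m)
  intro A hA
  rcases List.mem_cons.1 hA with rfl | hA
  · exact fm_mem a h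
  · exact hA

lemma ref_imp_false {φ ψ : L.BoundedFormula Empty k} {v : Fin k → ℕ} (hΓ : NL m Γ)
    (h : (⟨k, .imp φ ψ, v, false⟩ : Cl L) ∈ Γ)
    (h1 : Ref Ψ m (⟨k, φ, v, true⟩ :: ⟨k, ψ, v, false⟩ :: Γ)) : Ref Ψ m Γ := by
  have hv : ∀ i, v i < m := hΓ _ h
  have h1 : PD Ψ m fun n a =>
    .neg (trans φ (a ∘ v)) :: trans ψ (a ∘ v) :: Γ.map (fm a) := h1
  have hi := fu_trans (.imp φ ψ) hv
  have hψ := fu_trans ψ hv
  have h2 : PD Ψ m fun n a => .or 2 ![.neg (trans φ (a ∘ v)), trans ψ (a ∘ v)] ::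
      trans ψ (a ∘ v) :: Γ.map (fm a) :=
    PD.or (k := fun _ => 2) (f := fun n a => ![.neg (trans φ (a ∘ v)), trans ψ (a ∘ v)])
      (fun _ _ => 0) h1 (FL.cons hi (FL.cons hψ (fl_map hΓ)))
  have h3 : PD Ψ m fun n a => trans ψ (a ∘ v) ::
      .or 2 ![.neg (trans φ (a ∘ v)), trans ψ (a ∘ v)] :: Γ.map (fm a) :=
    h2.weak (FL.cons hψ (FL.cons hi (fl_map hΓ)))
      (fun n a A hA => by simp only [List.mem_cons] at hA ⊢; tauto) (le_refl m)
  have h4 : PD Ψ m fun n a => .or 2 ![.neg (trans φ (a ∘ v)), trans ψ (a ∘ v)] ::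
      .or 2 ![.neg (trans φ (a ∘ v)), trans ψ (a ∘ v)] :: Γ.map (fm a) :=
    PD.or (k := fun _ => 2) (f := fun n a => ![.neg (trans φ (a ∘ v)), trans ψ (a ∘ v)])
      (fun _ _ => 1) h3 (FL.cons hi (FL.cons hi (fl_map hΓ)))
  refine h4.weak (fl_map hΓ) (fun n a => ?_) (le_refl m)
  intro A hA
  rcases List.mem_cons.1 hA with rfl | hA
  · exact fm_mem a h
  rcases List.mem_cons.1 hA with rfl | hA
  · exact fm_mem a h
  · exact hA

lemma ref_all_true {φ : L.BoundedFormula Empty (k + 1)} {v : Fin k → ℕ} (j : ℕ)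
    (hΓ : NL m Γ) (h : (⟨k, .all φ, v, true⟩ : Cl L) ∈ Γ)
    (h1 : Ref Ψ m (⟨k + 1, φ, Fin.snoc v j, true⟩ :: Γ)) : Ref Ψ m Γ := by
  have hv : ∀ i, v i < m := hΓ _ h
  have h1 : PD Ψ m fun n a =>
    .neg (trans φ (a ∘ (Fin.snoc v j : Fin (k + 1) → ℕ))) :: Γ.map (fm a) := h1
  simp only [comp_snoc] at h1
  have hi := fu_trans (.all φ) hv
  have h2 : PD Ψ m fun n a => .or n (fun u => .neg (trans φ (Fin.snoc (a ∘ v) u))) ::
      Γ.map (fm a) :=
    PD.or (k := fun n => n) (f := fun n a u => .neg (trans φ (Fin.snoc (a ∘ v) u)))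
      (fun n a => a j) h1 (FL.cons hi.of_neg (fl_map hΓ))
  have h3 := h2.dneg (FL.cons hi.neg (fl_map hΓ))
  refine h3.weak (fl_map hΓ) (fun n a => ?_) (le_refl m)
  intro A hA
  rcases List.mem_cons.1 hA with rfl | hA
  · exact fm_mem a h
  · exact hA

lemma fm_update {n : ℕ} (a : ℕ → Fin n) {m : ℕ} (u : Fin n) (hΓ : NL m Γ) :
    Γ.map (fm (Function.update a m u)) = Γ.map (fm a) := by
  apply List.map_congr_left
  intro c hc
  have : Function.update a m u ∘ c.2.2.1 = a ∘ c.2.2.1 :=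
    funext fun i => Function.update_of_ne (hΓ c hc i).ne _ _
  rw [fm, fm, this]

lemma injOn_update {n : ℕ} {a : ℕ → Fin n} {m : ℕ} {u : Fin n}
    (ha : Set.InjOn a (Set.Iio m)) (hu : ¬ ∃ j < m, a j = u) :
    Set.InjOn (Function.update a m u) (Set.Iio (m + 1)) := by
  intro x hx y hy hxy
  rw [Set.mem_Iio] at hx hy
  by_cases hxm : x = m <;> by_cases hym : y = m
  · rw [hxm, hym]
  · exfalso
    rw [hxm, Function.update_self, Function.update_of_ne hym] at hxy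
    exact hu ⟨y, by omega, hxy.symm⟩
  · exfalso
    rw [hym, Function.update_self, Function.update_of_ne hxm] at hxy
    exact hu ⟨x, by omega, hxy⟩
  · rw [Function.update_of_ne hxm, Function.update_of_ne hym] at hxy
    exact ha (show x < m by omega) (show y < m by omega) hxy

lemma update_eq {n : ℕ} {a a' : ℕ → Fin n} {m : ℕ} {u : Fin n} {π : Perm (Fin n)}
    (h : ∀ i < m, a' i = π (a i)) :
    ∀ i < m + 1, Function.update a' m (π u) i = π (Function.update a m u i) := by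
  intro i hi
  by_cases him : i = m
  · subst him
    rw [Function.update_self, Function.update_self]
  · rw [Function.update_of_ne him, Function.update_of_ne him]
    exact h i (by omega)

lemma exists_iff {n : ℕ} {a a' : ℕ → Fin n} {m : ℕ} {u : Fin n} {π : Perm (Fin n)}
    (h : ∀ i < m, a' i = π (a i)) (j : ℕ) : (j < m ∧ a' j = π u) ↔ (j < m ∧ a j = u) := by
  constructor
  · rintro ⟨h1, h2⟩
    rw [h j h1] at h2
    exact ⟨h1, π.injective h2⟩
  · rintro ⟨h1, h2⟩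
    exact ⟨h1, by rw [h j h1, h2]⟩

lemma ref_all_false {φ : L.BoundedFormula Empty (k + 1)} {v : Fin k → ℕ} (hΓ : NL m Γ)
    (h : (⟨k, .all φ, v, false⟩ : Cl L) ∈ Γ)
    (h1 : ∀ j < m, Ref Ψ m (⟨k + 1, φ, Fin.snoc v j, false⟩ :: Γ))
    (h2 : Ref Ψ (m + 1) (⟨k + 1, φ, Fin.snoc v m, false⟩ :: Γ)) : Ref Ψ m Γ := by
  classical
  have hv : ∀ i, v i < m := hΓ _ h
  have hi := fu_trans (.all φ) hv
  -- the derivations for the named elements
  have hK : ∀ j, ∃ (K : ℕ) (P : (n : ℕ) → (ℕ → Fin n) → List (List (Fm (Atom L n)))),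
      j < m → Fam Ψ m K P ∧ ∀ n, K ≤ n → 2 ≤ n → ∀ a : ℕ → Fin n, Set.InjOn a (Set.Iio m) →
        (trans φ (Fin.snoc (a ∘ v) (a j)) :: Γ.map (fm a)) ∈ P n a := by
    intro j
    by_cases hj : j < m
    · obtain ⟨K, P, h3, h4⟩ := h1 j hj
      refine ⟨K, P, fun _ => ⟨h3, fun n hn hn2 a ha => ?_⟩⟩
      have := h4 n hn hn2 a ha
      beta_reduce at this
      rw [List.map_cons, fm_false, comp_snoc] at this
      exact this
    · exact ⟨0, fun _ _ => [], fun hj' => absurd hj' hj⟩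
  choose K1 P1 hP1 using hK
  obtain ⟨K0, hK0⟩ : ∃ K0, ∀ j < m, K1 j ≤ K0 :=
    ⟨(Finset.range m).sup K1, fun j hj => Finset.le_sup (Finset.mem_range.2 hj)⟩
  obtain ⟨K2, P2, h2, hP2⟩ := h2
  -- bounds for the lines `¬ ¬ F u :: Γ`
  obtain ⟨⟨K3, hK3⟩, hE3⟩ := FL.cons (m := m + 1)
    (fu_trans (m := m + 1) φ (v := Fin.snoc v m) (by
      intro i
      refine Fin.lastCases ?_ (fun j => ?_) i
      · simp
      · simpa using (hv j).trans (Nat.lt_succ_self m))).neg.neg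
    (fl_map (m := m + 1) (Γ := Γ) fun c hc i => (hΓ c hc i).trans (Nat.lt_succ_self m))
  have hline : ∀ n (a : ℕ → Fin n) (u : Fin n),
      (fun n a => Fm.neg (.neg (trans φ (a ∘ (Fin.snoc v m : Fin (k + 1) → ℕ)))) ::
        Γ.map (fm a)) n (Function.update a m u) =
      .neg (.neg (trans φ (Fin.snoc (a ∘ v) u))) :: Γ.map (fm a) := by
    intro n a u
    beta_reduce
    rw [update_snoc a v (fun i => (hv i).ne) u, fm_update a u hΓ]
  let Pu : (n : ℕ) → (ℕ → Fin n) → Fin n → List (List (Fm (Atom L n))) := fun n a u =>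
    (.neg (.neg (trans φ (Fin.snoc (a ∘ v) u))) :: Γ.map (fm a)) ::
      (if hu : ∃ j, j < m ∧ a j = u then P1 (Nat.find hu) n a
        else P2 n (Function.update a m u))
  obtain ⟨KB, hKB⟩ : ∃ KB, KB = (K0 + K2) + (2 * K3 + 1) + 1 := ⟨_, rfl⟩
  have hflat : Fam Ψ m (KB + 1) fun n a => (List.finRange n).flatMap (Pu n a) := by
    apply fam_flat
    intro n hn hn2
    refine ⟨fun a ha u => ?_, fun a a' π hi u Δ hΔ => ?_⟩
    · have hU := hK3 n hn2 (Function.update a m u)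
      rw [hline] at hU
      have hrest : ∃ R, (if hu : ∃ j, j < m ∧ a j = u then P1 (Nat.find hu) n a
          else P2 n (Function.update a m u)) = R ∧
          IsDerivation (m := 0) (translation Ψ n) Fin.elim0 (R.map lift) ∧
          (R.map lsize).sum ≤ n ^ (K0 + K2) ∧ (∀ Δ ∈ R, Good (K0 + K2) Δ) ∧
          (trans φ (Fin.snoc (a ∘ v) u) :: Γ.map (fm a)) ∈ R := by
        by_cases hu : ∃ j, j < m ∧ a j = u
        · rw [dif_pos hu]
          refine ⟨_, rfl, ?_⟩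
          obtain ⟨hj, hju⟩ := Nat.find_spec hu
          obtain ⟨h3, h4⟩ := hP1 _ hj
          have hle := hK0 _ hj
          obtain ⟨h5, h6, h7⟩ := (h3 n (by omega) hn2).1 a ha
          refine ⟨h5, h6.trans (Nat.pow_le_pow_right (by omega) (by omega)),
            fun Δ hΔ => (h7 Δ hΔ).mono (by omega), ?_⟩
          have h8 := h4 n (by omega) hn2 a ha
          rwa [hju] at h8
        · rw [dif_neg hu]
          refine ⟨_, rfl, ?_⟩
          have ha' := injOn_update ha hu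
          obtain ⟨h5, h6, h7⟩ := (h2 n (by omega) hn2).1 _ ha'
          refine ⟨h5, h6.trans (Nat.pow_le_pow_right (by omega) (by omega)),
            fun Δ hΔ => (h7 Δ hΔ).mono (by omega), ?_⟩
          have h8 := hP2 n (by omega) hn2 _ ha'
          beta_reduce at h8
          rw [List.map_cons, fm_false, update_snoc a v (fun i => (hv i).ne) u,
            fm_update a u hΓ] at h8
          exact h8
      obtain ⟨R, hR, h3, h4, h5, h6⟩ := hrest
      have hPu : Pu n a u = (.neg (.neg (trans φ (Fin.snoc (a ∘ v) u))) :: Γ.map (fm a)) :: R := by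
        simp only [Pu, hR]
      rw [hPu]
      refine ⟨?_, ?_, fun Δ hΔ => ?_⟩
      · rw [List.map_cons]
        exact .cons h3 (.dneg (Γ := lift (Γ.map (fm a))) (List.mem_map_of_mem (f := lift) h6))
      · rw [List.map_cons, List.sum_cons]
        have h7 := hU.lsize_le hn2
        have h8 := pow_add_pow_le hn2 (K0 + K2) (2 * K3 + 1)
        rw [← hKB] at h8
        omega
      · rcases List.mem_cons.1 hΔ with rfl | hΔ
        · exact hU.good.mono (by omega)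
        · exact (h5 Δ hΔ).mono (by omega)
    · rcases List.mem_cons.1 hΔ with rfl | hΔ
      · refine ⟨_, List.mem_cons_self, ?_⟩
        have := hE3 n _ _ π (update_eq (u := u) hi)
        rw [hline, hline] at this
        exact this
      · by_cases hu : ∃ j, j < m ∧ a j = u
        · have hu' : ∃ j, j < m ∧ a' j = π u := by
            obtain ⟨j, hj⟩ := hu
            exact ⟨j, (exists_iff hi j).2 hj⟩
          have hfind : Nat.find hu' = Nat.find hu := by
            apply le_antisymm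
            · exact Nat.find_min' _ ((exists_iff hi _).2 (Nat.find_spec hu))
            · exact Nat.find_min' _ ((exists_iff hi _).1 (Nat.find_spec hu'))
          rw [dif_pos hu] at hΔ
          obtain ⟨hj, hju⟩ := Nat.find_spec hu
          obtain ⟨h3, h4⟩ := hP1 _ hj
          have hle := hK0 _ hj
          obtain ⟨Δ', h5, h6⟩ := (h3 n (by omega) hn2).2 a a' π hi Δ hΔ
          refine ⟨Δ', List.mem_cons_of_mem _ ?_, h6⟩
          rw [dif_pos hu', hfind]
          exact h5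
        · have hu' : ¬ ∃ j, j < m ∧ a' j = π u := by
            rintro ⟨j, hj⟩
            exact hu ⟨j, (exists_iff hi j).1 hj⟩
          rw [dif_neg hu] at hΔ
          obtain ⟨Δ', h5, h6⟩ := (h2 n (by omega) hn2).2 _ _ π (update_eq (u := u) hi) Δ hΔ
          refine ⟨Δ', List.mem_cons_of_mem _ ?_, h6⟩
          rw [dif_neg hu']
          exact h5
  obtain ⟨⟨KG, hG⟩, hE⟩ := FL.cons hi (fl_map hΓ)
  have h3 : PD Ψ m fun n a =>
      .neg (.or n fun u => .neg (trans φ (Fin.snoc (a ∘ v) u))) :: Γ.map (fm a) := by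
    refine ⟨_, _, fam_cons hflat hG hE fun n hn hn2 a ha => ?_,
      fun n hn hn2 a ha => List.mem_cons_self⟩
    refine .norIntro (f := fun u => (Fm.neg (trans φ (Fin.snoc (a ∘ v) u))).rename .inl)
      (Γ := lift (Γ.map (fm a))) fun u => ?_
    refine List.mem_map_of_mem (f := lift) (a := .neg (.neg (trans φ (Fin.snoc (a ∘ v) u))) ::
      Γ.map (fm a)) (List.mem_flatMap.2 ⟨u, List.mem_finRange u, ?_⟩)
    simp only [Pu]
    exact List.mem_cons_self
  refine h3.weak (fl_map hΓ) (fun n a => ?_) (le_refl m)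
  intro A hA
  rcases List.mem_cons.1 hA with rfl | hA
  · exact fm_mem a h
  · exact hA

lemma ref_fresh (h : Ref Ψ (m + 1) Γ) (hΓ : NL m Γ) : Ref Ψ m Γ := by
  classical
  obtain ⟨K, P, hP, hF⟩ := h
  have hflat : Fam Ψ m (K + 1) fun n a => (List.finRange n).flatMap fun u =>
      if ∃ j, j < m ∧ a j = u then [] else P n (Function.update a m u) := by
    apply fam_flat
    intro n hn hn2
    refine ⟨fun a ha u => ?_, fun a a' π hi u Δ hΔ => ?_⟩
    · by_cases hu : ∃ j, j < m ∧ a j = u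
      · rw [if_pos hu]
        exact ⟨.nil, by simp, fun Δ hΔ => absurd hΔ List.not_mem_nil⟩
      · rw [if_neg hu]
        exact (hP n (by omega) hn2).1 _ (injOn_update ha hu)
    · by_cases hu : ∃ j, j < m ∧ a j = u
      · rw [if_pos hu] at hΔ
        exact absurd hΔ List.not_mem_nil
      · have hu' : ¬ ∃ j, j < m ∧ a' j = π u := by
          rintro ⟨j, hj⟩
          exact hu ⟨j, (exists_iff hi j).1 hj⟩
        rw [if_neg hu] at hΔ
        rw [if_neg hu']
        exact (hP n (by omega) hn2).2 _ _ π (update_eq (u := u) hi) Δ hΔ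
  refine ⟨K + 1 + (m + 1), _, hflat.mono (by omega), fun n hn hn2 a ha => ?_⟩
  obtain ⟨u, hu⟩ : ∃ u, u ∉ (Finset.range m).image a := by
    by_contra hcon
    push Not at hcon
    have h5 : (Finset.univ : Finset (Fin n)) ⊆ (Finset.range m).image a := fun z _ => hcon z
    have h6 := Finset.card_le_card h5
    have h7 := Finset.card_image_le (s := Finset.range m) (f := a)
    rw [Finset.card_univ, Fintype.card_fin] at h6
    rw [Finset.card_range] at h7
    omega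
  have hu' : ¬ ∃ j, j < m ∧ a j = u := by
    rintro ⟨j, hj, rfl⟩
    exact hu (Finset.mem_image_of_mem a (Finset.mem_range.2 hj))
  refine List.mem_flatMap.2 ⟨u, List.mem_finRange u, ?_⟩
  rw [if_neg hu']
  have h8 := hF n (by omega) hn2 _ (injOn_update ha hu')
  beta_reduce at h8
  rwa [fm_update a u hΓ] at h8

lemma ref_ax (hΓ : NL m Γ) (h : Ref Ψ m (⟨0, Ψ, Fin.elim0, true⟩ :: Γ)) : Ref Ψ m Γ := by
  have e : ∀ n (a : ℕ → Fin n),
      trans (k := 0) Ψ (a ∘ (Fin.elim0 : Fin 0 → ℕ)) = translation Ψ n := by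
    intro n a
    rw [translation]
    congr 1
    exact Subsingleton.elim _ _
  have hA : FU m fun n _ => translation Ψ n := by
    have := fu_trans (m := m) (k := 0) Ψ (v := Fin.elim0) fun i => i.elim0
    simp only [e] at this
    exact this
  have h1 : PD Ψ m fun n a => .neg (translation Ψ n) :: Γ.map (fm a) := by
    have h : PD Ψ m fun n a =>
      .neg (trans (k := 0) Ψ (a ∘ (Fin.elim0 : Fin 0 → ℕ))) :: Γ.map (fm a) := h
    simp only [e] at h
    exact h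
  have h2 : PD Ψ m fun n a => translation Ψ n :: Γ.map (fm a) :=
    (pd_ax hA).weak (FL.cons hA (fl_map hΓ)) (fun n a A hA => by
      rw [List.mem_singleton] at hA
      subst hA
      exact List.mem_cons_self) (le_refl m)
  exact h2.cut h1 (fl_map hΓ)

end

end Pool.Agent.Lib.MP_e81270_lc_Gap
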