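import Pool.Agent.Lib.MP_e81270_lc_Gap.Basic

/-!
# The value of a formula with small supports in an infinite structure
-/

set_option autoImplicit false

namespace Pool.Agent.Lib.MP_e81270_lc_Gap

open FirstOrder Equiv Equiv.Perm

section
variable {L : FirstOrder.Language.{0, 0}} {n : ℕ} {Q : Finset (Fin n)} {M : Type}
  [L.Structure M]

lemma card_split (X : Finset (Fin n)) : X.card + Q.card ≤ (X ∩ Q).card + n := by
  have h1 := Finset.card_inter_add_card_sdiff X Q
  have h2 : (X \ Q).card ≤ (Qᶜ).card := by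
    apply Finset.card_le_card
    intro x hx
    exact Finset.mem_compl.2 (Finset.mem_sdiff.1 hx).2
  have h3 := Finset.card_add_card_compl Q
  rw [Fintype.card_fin] at h3
  omega

lemma union_inter_card_le (X Y : Finset (Fin n)) :
    ((X ∪ Y) ∩ Q).card ≤ (X ∩ Q).card + (Y ∩ Q).card := by
  rw [Finset.union_inter_distrib_right]
  exact Finset.card_union_le _ _

variable (Q) in
/-- the value of a formula at an injection of `{0, ..., n-1}` into `M` -/
def val : Fm (Atom L n) → (Fin n → M) → Prop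
  | .var x, ι => Language.Structure.RelMap x.2.1 fun i => ι (x.2.2 i)
  | .neg A, ι => ¬ val A ι
  | .or k f, ι => ∃ ι' : Fin n → M, Function.Injective ι' ∧
      (∀ x ∈ supp Q (.or k f), ι' x = ι x) ∧ ∃ i, val (f i) ι'

lemma val_loc (hn : 2 ≤ Q.card) {A : Fm (Atom L n)} {ι ι' : Fin n → M}
    (h : ∀ x ∈ supp Q A, ι x = ι' x) : val Q A ι ↔ val Q A ι' := by
  induction A with
  | var x =>
    rw [val, val]
    have : (fun i => ι (x.2.2 i)) = fun i => ι' (x.2.2 i) :=
      funext fun i => h _ (mem_supp_var hn x i)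
    rw [this]
  | neg A ih =>
    rw [val, val, ih]
    rw [← supp_neg]
    exact h
  | or k f ih =>
    rw [val, val]
    constructor
    · rintro ⟨κ, h1, h2, h3⟩
      exact ⟨κ, h1, fun x hx => (h2 x hx).trans (h x hx), h3⟩
    · rintro ⟨κ, h1, h2, h3⟩
      exact ⟨κ, h1, fun x hx => (h2 x hx).trans (h x hx).symm, h3⟩

lemma val_permute (A : Fm (Atom L n)) {π : Perm (Fin n)} (hπ : ∀ x ∉ Q, π x = x)
    (ι : Fin n → M) : val Q (permute π A) ι ↔ val Q A (ι ∘ π) := by
  induction A generalizing ι with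
  | var x => exact Iff.rfl
  | neg A ih =>
    show ¬ val Q (permute π A) ι ↔ ¬ val Q A (ι ∘ π)
    rw [ih]
  | or k f ih =>
    have hs := supp_permute (Fm.or k f) hπ
    show val Q (.or k fun i => permute π (f i)) ι ↔ _
    have hs' : supp Q (Fm.or k fun i => permute π (f i)) =
        (supp Q (Fm.or k f)).map π.toEmbedding := hs
    rw [val, val, hs']
    constructor
    · rintro ⟨κ, h1, h2, i, h3⟩
      refine ⟨κ ∘ π, h1.comp π.injective, ?_, i, (ih i κ).1 h3⟩
      intro x hx
      exact h2 (π x) (Finset.mem_map_of_mem π.toEmbedding hx)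
    · rintro ⟨κ, h1, h2, i, h3⟩
      refine ⟨κ ∘ π.symm, h1.comp π.symm.injective, ?_, i, ?_⟩
      · intro x hx
        rw [Finset.mem_map_equiv] at hx
        have := h2 _ hx
        rw [Function.comp_apply, this, Function.comp_apply, Equiv.apply_symm_apply]
      · rw [ih]
        have : (κ ∘ π.symm) ∘ π = κ := by
          funext x
          simp
        rw [this]
        exact h3

lemma val_same {A B : Fm (Atom L n)} (h : Same A B) (ι : Fin n → M) :
    val Q A ι ↔ val Q B ι := by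
  induction A generalizing B ι with
  | var x =>
    cases B with
    | var y =>
      have : x = y := h
      rw [this]
    | neg B => simp [Same] at h
    | or l g => simp [Same] at h
  | neg A ih =>
    cases B with
    | var y => simp [Same] at h
    | or l g => simp [Same] at h
    | neg B =>
      rw [val, val, ih (B := B) h]
  | or k f ih =>
    cases B with
    | var y => simp [Same] at h
    | neg B => simp [Same] at h
    | or l g =>
      rw [val, val, supp_same Q h]
      constructor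
      · rintro ⟨κ, h1, h2, i, h3⟩
        obtain ⟨j, hj⟩ := h.1 i
        exact ⟨κ, h1, h2, j, (ih i hj κ).1 h3⟩
      · rintro ⟨κ, h1, h2, j, h3⟩
        obtain ⟨i, hi⟩ := h.2 j
        exact ⟨κ, h1, h2, i, (ih i hi κ).2 h3⟩

/-- an injection on a set extends -/
lemma exists_inj [Infinite M] (X : Finset (Fin n)) (g : Fin n → M)
    (hg : Set.InjOn g X) : ∃ ι : Fin n → M, Function.Injective ι ∧ ∀ x ∈ X, ι x = g x := by
  classical
  have hinf : Infinite ((g '' (X : Set (Fin n)))ᶜ : Set M) :=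
    (Set.Finite.infinite_compl (X.finite_toSet.image g)).to_subtype
  let e : Fin n ↪ ((g '' (X : Set (Fin n)))ᶜ : Set M) :=
    (Fin.valEmbedding).trans (Infinite.natEmbedding _)
  refine ⟨fun x => if x ∈ X then g x else (e x : M), ?_, fun x hx => by simp [hx]⟩
  intro x y hxy
  by_cases hx : x ∈ X <;> by_cases hy : y ∈ X <;> simp only [hx, hy, if_true, if_false] at hxy
  · exact hg hx hy hxy
  · exact absurd ⟨x, hx, hxy⟩ (e y).2
  · exact absurd ⟨y, hy, hxy.symm⟩ (e x).2
  · exact e.injective (Subtype.ext hxy)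

/-- an even permutation which moves `B` to the places prescribed by two injections -/
lemma exists_move {ι ι' : Fin n → M} (hι : Function.Injective ι)
    (hι' : Function.Injective ι') {S P B : Finset (Fin n)} (hSP : S ⊆ P)
    (hS : ∀ x ∈ S, ι' x = ι x) (h1 : (S ∪ B).card + 2 ≤ n)
    (h2 : P.card + (B \ S).card ≤ n) :
    ∃ π : Perm (Fin n), sign π = 1 ∧ (∀ x ∈ S, π x = x) ∧
      ∀ b ∈ B, ∀ p ∈ P, ι' b = ι p ↔ π b = p := by
  classical
  have hPc : (B \ S).card ≤ (Pᶜ).card := by
    rw [Finset.card_compl, Fintype.card_fin]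
    omega
  obtain ⟨e⟩ : Nonempty ({x // x ∈ B \ S} ↪ {x // x ∈ Pᶜ}) :=
    Function.Embedding.nonempty_of_card_le (by rw [Fintype.card_coe, Fintype.card_coe]; exact hPc)
  let h : Fin n → Fin n := fun x => if hx : ∃ p ∈ P, ι' x = ι p then hx.choose else
    if hb : x ∈ B \ S then e ⟨x, hb⟩ else x
  have f1 : ∀ x, ∀ p ∈ P, ι' x = ι p → h x = p := by
    intro x p hp hxp
    have hx : ∃ p ∈ P, ι' x = ι p := ⟨p, hp, hxp⟩
    have h3 := hx.choose_spec
    have : h x = hx.choose := by simp only [h, hx, dif_pos]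
    rw [this]
    exact hι (h3.2.symm.trans hxp)
  have f2 : ∀ x (hb : x ∈ B \ S), (¬ ∃ p ∈ P, ι' x = ι p) → h x = e ⟨x, hb⟩ := by
    intro x hb hx
    simp only [h, hx, hb, dif_pos, dif_neg, not_false_eq_true]
  have hBS : ∀ x ∈ S ∪ B, (¬ ∃ p ∈ P, ι' x = ι p) → x ∈ B \ S := by
    intro x hx hxp
    have hxS : x ∉ S := fun hxS => hxp ⟨x, hSP hxS, hS x hxS⟩
    exact Finset.mem_sdiff.2 ⟨(Finset.mem_union.1 hx).resolve_left hxS, hxS⟩
  have hinj : Set.InjOn h ((S ∪ B : Finset (Fin n)) : Set (Fin n)) := by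
    have hcase : ∀ x ∈ S ∪ B, (∃ p ∈ P, ι' x = ι p) ∨
        (x ∈ B \ S ∧ ¬ ∃ p ∈ P, ι' x = ι p) := by
      intro x hx
      by_cases hxp : ∃ p ∈ P, ι' x = ι p
      · exact Or.inl hxp
      · exact Or.inr ⟨hBS x hx hxp, hxp⟩
    intro x hx y hy hxy
    rcases hcase x hx with ⟨p, hp, hxp⟩ | ⟨hxB, hxp⟩ <;>
      rcases hcase y hy with ⟨q, hq, hyq⟩ | ⟨hyB, hyq⟩
    · rw [f1 x p hp hxp, f1 y q hq hyq] at hxy
      apply hι'
      rw [hxp, hyq, hxy]
    · rw [f1 x p hp hxp, f2 y hyB hyq] at hxy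
      exact absurd hp (Finset.mem_compl.1 (hxy ▸ (e ⟨y, hyB⟩).2))
    · rw [f2 x hxB hxp, f1 y q hq hyq] at hxy
      exact absurd hq (Finset.mem_compl.1 (hxy ▸ (e ⟨x, hxB⟩).2))
    · rw [f2 x hxB hxp, f2 y hyB hyq] at hxy
      exact congrArg Subtype.val (e.injective (Subtype.ext hxy))
  obtain ⟨ρ, hρ⟩ := Pool.Agent.SymSC.exists_perm_extend (S ∪ B) h hinj
  obtain ⟨π, hπ1, hπ2⟩ := Pool.Agent.SymSC.exists_even (S ∪ B)
    (by rw [Fintype.card_fin]; exact h1) ρ
  have hπ : ∀ x ∈ S ∪ B, π x = h x := fun x hx => (hπ2 x hx).trans (hρ x hx)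
  refine ⟨π, hπ1, ?_, ?_⟩
  · intro x hx
    rw [hπ x (Finset.mem_union_left _ hx)]
    exact f1 x x (hSP hx) (hS x hx)
  · intro b hb p hp
    rw [hπ b (Finset.mem_union_right _ hb)]
    constructor
    · intro h3
      exact f1 b p hp h3
    · intro h3
      by_cases hbp : ∃ q ∈ P, ι' b = ι q
      · obtain ⟨q, hq, hbq⟩ := hbp
        rw [f1 b q hq hbq] at h3
        rw [← h3]
        exact hbq
      · rw [f2 b (hBS b (Finset.mem_union_right _ hb) hbp) hbp] at h3
        exact absurd hp (Finset.mem_compl.1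
          (h3 ▸ (e ⟨b, hBS b (Finset.mem_union_right _ hb) hbp⟩).2))

/-- the witness of a true disjunction can be chosen to agree with `ι` on any small set -/
lemma exchange [Infinite M] {r k : ℕ} {f : Fin k → Fm (Atom L n)} (hA : Nice Q r (.or k f))
    (hf : ∀ i, Nice Q r (f i)) {ι : Fin n → M} (hι : Function.Injective ι)
    (hv : val Q (.or k f) ι) (R : Finset (Fin n)) (h1 : 2 * r + 2 ≤ Q.card)
    (h2 : (R ∩ Q).card + 2 * r ≤ Q.card) :
    ∃ κ : Fin n → M, Function.Injective κ ∧ (∀ x ∈ supp Q (.or k f) ∪ R, κ x = ι x) ∧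
      ∃ i, val Q (f i) κ := by
  classical
  rw [val] at hv
  obtain ⟨ι', hι', hs, i, hi⟩ := hv
  have hr := hA.1
  have hri := (hf i).1
  have hc1 := union_inter_card_le (Q := Q) (supp Q (.or k f)) (supp Q (f i))
  have hc2 := union_inter_card_le (Q := Q) (supp Q (.or k f)) R
  have hc3 := card_split (Q := Q) (supp Q (.or k f) ∪ supp Q (f i))
  have hc4 := card_split (Q := Q) (supp Q (.or k f) ∪ R)
  have hc5 : (supp Q (f i) \ supp Q (.or k f)).card ≤ (supp Q (f i) ∩ Q).card := by
    apply Finset.card_le_card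
    intro x hx
    rw [Finset.mem_sdiff] at hx
    refine Finset.mem_inter.2 ⟨hx.1, ?_⟩
    by_contra hc
    exact hx.2 (compl_subset_supp Q _ (Finset.mem_compl.2 hc))
  obtain ⟨π, hπ1, hπ2, hπ3⟩ := exists_move hι hι' (S := supp Q (.or k f))
    (P := supp Q (.or k f) ∪ R) (B := supp Q (f i)) Finset.subset_union_left hs (by omega)
    (by omega)
  have hπQ : ∀ x ∉ Q, π x = x := fun x hx =>
    hπ2 x (compl_subset_supp Q _ (Finset.mem_compl.2 hx))
  have hinj : Set.InjOn (fun x => if x ∈ supp Q (.or k f) ∪ R then ι x else ι' (π.symm x))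
      ((supp Q (.or k f) ∪ R) ∪ (supp Q (f i)).map π.toEmbedding : Finset (Fin n)) := by
    have hcase : ∀ x ∈ (supp Q (.or k f) ∪ R) ∪ (supp Q (f i)).map π.toEmbedding,
        x ∈ supp Q (.or k f) ∪ R ∨ (x ∉ supp Q (.or k f) ∪ R ∧ π.symm x ∈ supp Q (f i)) := by
      intro x hx
      by_cases hxP : x ∈ supp Q (.or k f) ∪ R
      · exact Or.inl hxP
      · refine Or.inr ⟨hxP, ?_⟩
        rcases Finset.mem_union.1 hx with hx | hx
        · exact absurd hx hxP
        · exact Finset.mem_map_equiv.1 hx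
    intro x hx y hy hxy
    rcases hcase x hx with hx | ⟨hx, hxB⟩ <;> rcases hcase y hy with hy | ⟨hy, hyB⟩ <;>
      simp only [hx, hy, if_true, if_false] at hxy
    · exact hι hxy
    · have := (hπ3 _ hyB x hx).1 hxy.symm
      rw [Equiv.apply_symm_apply] at this
      exact this.symm
    · have := (hπ3 _ hxB y hy).1 hxy
      rw [Equiv.apply_symm_apply] at this
      exact this
    · exact π.symm.injective (hι' hxy)
  obtain ⟨κ, hκ, hκ2⟩ := exists_inj _ _ hinj
  refine ⟨κ, hκ, ?_, ?_⟩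
  · intro x hx
    rw [hκ2 x (Finset.mem_union_left _ hx)]
    simp only [hx, if_true]
  · have h3 : val Q (permute π (f i)) κ := by
      rw [val_permute _ hπQ, val_loc (by omega) (ι' := ι')]
      · exact hi
      · intro b hb
        rw [Function.comp_apply, hκ2 (π b) (Finset.mem_union_right _
          (Finset.mem_map_of_mem π.toEmbedding hb))]
        by_cases hp : π b ∈ supp Q (.or k f) ∪ R
        · simp only [hp, if_true]
          exact ((hπ3 b hb _ hp).2 rfl).symm
        · simp only [hp, if_false, Equiv.symm_apply_apply]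
    have h4 : Same (permute π (.or k f)) (.or k f) := hA.2 π hπ1 hπ2
    obtain ⟨j, hj⟩ := h4.1 i
    exact ⟨j, (val_same hj κ).1 h3⟩

end

end Pool.Agent.Lib.MP_e81270_lc_Gap
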