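import Pool.Agent.Lib.MP_e81270_lc_Gap.Sem

/-!
# The rules are sound for the values in an infinite structure
-/

set_option autoImplicit false
set_option linter.unusedSectionVars false

namespace Pool.Agent.Lib.MP_e81270_lc_Gap

open FirstOrder Equiv Equiv.Perm

section
variable {L : FirstOrder.Language.{0, 0}} {n : ℕ} {Q : Finset (Fin n)} {M : Type}
  [L.Structure M]

lemma val_disj {Γ : List (Fm (Atom L n))} {ι : Fin n → M} :
    val Q (disj Γ) ι ↔ ∃ κ : Fin n → M, Function.Injective κ ∧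
      (∀ x ∈ supp Q (disj Γ), κ x = ι x) ∧ ∃ A ∈ Γ, val Q A κ := by
  rw [disj, val]
  constructor
  · rintro ⟨κ, h1, h2, i, h3⟩
    exact ⟨κ, h1, h2, Γ.get i, Γ.get_mem i, h3⟩
  · rintro ⟨κ, h1, h2, A, hA, h3⟩
    obtain ⟨i, rfl⟩ := List.mem_iff_get.1 hA
    exact ⟨κ, h1, h2, i, h3⟩

variable (Q) in
/-- a line which holds at all injections -/
def Valid (M : Type) [L.Structure M] (Γ : List (Fm (Atom L n))) : Prop :=
  ∀ ι : Fin n → M, Function.Injective ι → val Q (disj Γ) ι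

variable (Q) in
/-- all subformulas have small support -/
def NiceLine (r : ℕ) (Γ : List (Fm (Atom L n))) : Prop :=
  ∀ B, Sub B (disj Γ) → Nice Q r B

lemma Sub.trans {V : Type} {A B C : Fm V} (h : Sub A B) (h' : Sub B C) : Sub A C := by
  induction h' with
  | refl => exact h
  | neg _ ih => exact .neg ih
  | or i _ ih => exact .or i ih

lemma sub_disj {V : Type} {Γ : List (Fm V)} {A B : Fm V} (hA : A ∈ Γ) (h : Sub B A) :
    Sub B (disj Γ) := by
  obtain ⟨i, rfl⟩ := List.mem_iff_get.1 hA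
  exact .or i h

lemma NiceLine.self {r : ℕ} {Γ : List (Fm (Atom L n))} (h : NiceLine Q r Γ) :
    Nice Q r (disj Γ) := h _ (.refl _)

lemma NiceLine.mem {r : ℕ} {Γ : List (Fm (Atom L n))} (h : NiceLine Q r Γ)
    {A : Fm (Atom L n)} (hA : A ∈ Γ) : Nice Q r A := h _ (sub_disj hA (.refl _))

variable [Infinite M] {r : ℕ}

lemma use_line {Γ : List (Fm (Atom L n))} (hΓ : NiceLine Q r Γ) (hv : Valid Q M Γ)
    {ι : Fin n → M} (hι : Function.Injective ι) (R : Finset (Fin n)) (h1 : 2 * r + 2 ≤ Q.card)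
    (h2 : (R ∩ Q).card + 2 * r ≤ Q.card) :
    ∃ κ : Fin n → M, Function.Injective κ ∧ (∀ x ∈ R, κ x = ι x) ∧ ∃ A ∈ Γ, val Q A κ := by
  obtain ⟨κ, h3, h4, i, h5⟩ := exchange hΓ.self (fun i => hΓ.mem (Γ.get_mem i)) hι (hv ι hι) R
    h1 h2
  exact ⟨κ, h3, fun x hx => h4 x (Finset.mem_union_right _ hx), Γ.get i, Γ.get_mem i, h5⟩

lemma valid_middle {A : Fm (Atom L n)} {Γ : List (Fm (Atom L n))} (h1 : A ∈ Γ)
    (h2 : .neg A ∈ Γ) : Valid Q M Γ := by
  intro ι hι
  rw [val_disj]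
  by_cases h : val Q A ι
  · exact ⟨ι, hι, fun _ _ => rfl, A, h1, h⟩
  · exact ⟨ι, hι, fun _ _ => rfl, .neg A, h2, h⟩

lemma valid_weak (hn : 4 * r + 2 ≤ Q.card) {Γ Δ : List (Fm (Atom L n))}
    (hΓ : NiceLine Q r Γ) (hΔ : NiceLine Q r Δ) (hv : Valid Q M Γ) (hs : Γ ⊆ Δ) :
    Valid Q M Δ := by
  intro ι hι
  have h1 := hΔ.self.1
  obtain ⟨κ, h3, h4, A, hA, h5⟩ := use_line hΓ hv hι (supp Q (disj Δ)) (by omega) (by omega)
  rw [val_disj]
  exact ⟨κ, h3, h4, A, hs hA, h5⟩

lemma valid_cut (hn : 4 * r + 2 ≤ Q.card) {A : Fm (Atom L n)} {Γ : List (Fm (Atom L n))}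
    (h1 : NiceLine Q r (A :: Γ)) (h2 : NiceLine Q r (.neg A :: Γ)) (hΓ : NiceLine Q r Γ)
    (hv1 : Valid Q M (A :: Γ)) (hv2 : Valid Q M (.neg A :: Γ)) : Valid Q M Γ := by
  intro ι hι
  by_contra hcon
  have c1 := hΓ.self.1
  have c2 := (h1.mem List.mem_cons_self).1
  have c3 := union_inter_card_le (Q := Q) (supp Q (disj Γ)) (supp Q A)
  have key : ∀ κ : Fin n → M, Function.Injective κ →
      (∀ x ∈ supp Q (disj Γ) ∪ supp Q A, κ x = ι x) → ∀ B ∈ Γ, ¬ val Q B κ := by
    intro κ hκ h B hB hvB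
    apply hcon
    rw [val_disj]
    exact ⟨κ, hκ, fun x hx => h x (Finset.mem_union_left _ hx), B, hB, hvB⟩
  obtain ⟨κ, k1, k2, B, hB, k3⟩ := use_line h1 hv1 hι (supp Q (disj Γ) ∪ supp Q A) (by omega)
    (by omega)
  obtain ⟨κ', k1', k2', B', hB', k3'⟩ := use_line h2 hv2 hι (supp Q (disj Γ) ∪ supp Q A)
    (by omega) (by omega)
  rcases List.mem_cons.1 hB with hB | hB
  · rcases List.mem_cons.1 hB' with hB' | hB'
    · subst hB
      subst hB'
      rw [val, val_loc (by omega) (ι' := ι)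
        (fun x hx => k2' x (Finset.mem_union_right _ hx))] at k3'
      rw [val_loc (by omega) (ι' := ι) (fun x hx => k2 x (Finset.mem_union_right _ hx))] at k3
      exact k3' k3
    · exact key κ' k1' k2' B' hB' k3'
  · exact key κ k1 k2 B hB k3

lemma valid_orIntro (hn : 4 * r + 2 ≤ Q.card) {k : ℕ} {f : Fin k → Fm (Atom L n)}
    {Γ : List (Fm (Atom L n))} (i : Fin k) (h1 : NiceLine Q r (f i :: Γ))
    (hΔ : NiceLine Q r (.or k f :: Γ)) (hv : Valid Q M (f i :: Γ)) :
    Valid Q M (.or k f :: Γ) := by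
  intro ι hι
  have c1 := hΔ.self.1
  obtain ⟨κ, k1, k2, B, hB, k3⟩ := use_line h1 hv hι (supp Q (disj (.or k f :: Γ))) (by omega)
    (by omega)
  rw [val_disj]
  rcases List.mem_cons.1 hB with hB | hB
  · subst hB
    exact ⟨κ, k1, k2, .or k f, List.mem_cons_self, κ, k1, fun _ _ => rfl, i, k3⟩
  · exact ⟨κ, k1, k2, B, List.mem_cons_of_mem _ hB, k3⟩

lemma valid_norIntro (hn : 4 * r + 2 ≤ Q.card) {k : ℕ} {f : Fin k → Fm (Atom L n)}
    {Γ : List (Fm (Atom L n))} (h1 : ∀ i, NiceLine Q r (.neg (f i) :: Γ))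
    (hΔ : NiceLine Q r (.neg (.or k f) :: Γ)) (hv : ∀ i, Valid Q M (.neg (f i) :: Γ)) :
    Valid Q M (.neg (.or k f) :: Γ) := by
  intro ι hι
  by_contra hcon
  have c1 := hΔ.self.1
  have key : ∀ κ : Fin n → M, Function.Injective κ →
      (∀ x ∈ supp Q (disj (.neg (.or k f) :: Γ)), κ x = ι x) →
      ∀ B ∈ .neg (.or k f) :: Γ, ¬ val Q B κ := by
    intro κ hκ h B hB hvB
    apply hcon
    rw [val_disj]
    exact ⟨κ, hκ, h, B, hB, hvB⟩
  have hor : Nice Q r (.or k f) := hΔ _ (sub_disj List.mem_cons_self (.neg (.refl _)))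
  have hf : ∀ i, Nice Q r (f i) := fun i =>
    hΔ _ (sub_disj List.mem_cons_self (.neg (.or i (.refl _))))
  have h3 := key ι hι (fun _ _ => rfl) _ List.mem_cons_self
  rw [val, not_not] at h3
  obtain ⟨κ, k1, k2, j, k3⟩ := exchange hor hf hι h3 (supp Q (disj (.neg (.or k f) :: Γ)))
    (by omega) (by omega)
  have c2 := (hf j).1
  have c3 := union_inter_card_le (Q := Q) (supp Q (disj (.neg (.or k f) :: Γ))) (supp Q (f j))
  obtain ⟨κ', k1', k2', B, hB, k3'⟩ := use_line (h1 j) (hv j) k1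
    (supp Q (disj (.neg (.or k f) :: Γ)) ∪ supp Q (f j)) (by omega) (by omega)
  rcases List.mem_cons.1 hB with hB | hB
  · subst hB
    rw [val, val_loc (by omega) (ι' := κ) (fun x hx => k2' x (Finset.mem_union_right _ hx))]
      at k3'
    exact k3' k3
  · refine key κ' k1' ?_ B (List.mem_cons_of_mem _ hB) k3'
    intro x hx
    rw [k2' x (Finset.mem_union_left _ hx), k2 x (Finset.mem_union_right _ hx)]

lemma valid_dneg (hn : 4 * r + 2 ≤ Q.card) {A : Fm (Atom L n)} {Γ : List (Fm (Atom L n))}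
    (h1 : NiceLine Q r (A :: Γ)) (hΔ : NiceLine Q r (.neg (.neg A) :: Γ))
    (hv : Valid Q M (A :: Γ)) : Valid Q M (.neg (.neg A) :: Γ) := by
  intro ι hι
  have c1 := hΔ.self.1
  obtain ⟨κ, k1, k2, B, hB, k3⟩ := use_line h1 hv hι (supp Q (disj (.neg (.neg A) :: Γ)))
    (by omega) (by omega)
  rw [val_disj]
  rcases List.mem_cons.1 hB with hB | hB
  · subst hB
    refine ⟨κ, k1, k2, .neg (.neg B), List.mem_cons_self, ?_⟩
    rw [val, val, not_not]
    exact k3
  · exact ⟨κ, k1, k2, B, List.mem_cons_of_mem _ hB, k3⟩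

lemma subst_rename {V : Type} {m : ℕ} (E : Fin m → Fm V) (A : Fm V) :
    subst E (A.rename .inl) = A := by
  induction A with
  | var x => rfl
  | neg A ih => simp only [Fm.rename, subst, ih]
  | or k f ih => simp only [Fm.rename, subst, ih]

/-- all lines of a derivation hold -/
theorem valid_of_derivation (hn : 4 * r + 2 ≤ Q.card) {m : ℕ} {Ax : Fm (Atom L n)}
    {D : Fin m → Fm (Atom L n ⊕ Fin m)} {E : Fin m → Fm (Atom L n)}
    {P : List (List (Fm (Atom L n ⊕ Fin m)))} (hP : IsDerivation Ax D P)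
    (hE : ∀ i, E i = subst E (D i)) (hnice : ∀ Γ ∈ P, NiceLine Q r (Γ.map (subst E)))
    (hAx : NiceLine Q r [Ax] → Valid Q M [Ax]) :
    ∀ Γ ∈ P, Valid Q M (Γ.map (subst E)) := by
  induction hP with
  | nil => intro Γ h; exact absurd h List.not_mem_nil
  | @cons P Γ hP hstep ih =>
    have ih := ih (fun Δ hΔ => hnice Δ (List.mem_cons_of_mem _ hΔ))
    have hn1 : ∀ {Δ}, Δ ∈ P → NiceLine Q r (Δ.map (subst E)) :=
      fun {Δ} hΔ => hnice Δ (List.mem_cons_of_mem _ hΔ)
    have hΓ := hnice Γ List.mem_cons_self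
    intro Δ hΔ
    rcases List.mem_cons.1 hΔ with hΔ | hΔ
    swap
    · exact ih Δ hΔ
    subst hΔ
    cases hstep with
    | ax =>
      rw [List.map_singleton, subst_rename] at hΓ ⊢
      exact hAx hΓ
    | extLeft i =>
      apply valid_middle (A := E i)
      · simp [hE i, subst]
      · simp [subst]
    | extRight i =>
      apply valid_middle (A := E i)
      · simp [subst]
      · simp [subst, ← hE i]
    | middle A =>
      apply valid_middle (A := subst E A)
      · simp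
      · simp [subst]
    | weak h1 h2 => exact valid_weak hn (hn1 h1) hΓ (ih _ h1) (List.map_subset _ h2)
    | @cut A Γ' h1 h2 =>
      have a1 := hn1 h1
      have a2 := hn1 h2
      have b1 := ih _ h1
      have b2 := ih _ h2
      rw [List.map_cons] at a1 a2 b1 b2
      rw [subst] at a2 b2
      exact valid_cut hn a1 a2 hΓ b1 b2
    | @orIntro k f Γ' i h1 =>
      have a1 := hn1 h1
      have b1 := ih _ h1
      rw [List.map_cons] at a1 b1 hΓ ⊢
      rw [subst] at hΓ ⊢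
      exact valid_orIntro (f := fun i => subst E (f i)) hn i a1 hΓ b1
    | @norIntro k f Γ' h1 =>
      have a1 : ∀ i, NiceLine Q r (.neg (subst E (f i)) :: Γ'.map (subst E)) := by
        intro i
        have := hn1 (h1 i)
        rw [List.map_cons, subst] at this
        exact this
      have b1 : ∀ i, Valid Q M (.neg (subst E (f i)) :: Γ'.map (subst E)) := by
        intro i
        have := ih _ (h1 i)
        rw [List.map_cons, subst] at this
        exact this
      rw [List.map_cons, subst, subst] at hΓ ⊢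
      exact valid_norIntro (f := fun i => subst E (f i)) hn a1 hΓ b1
    | @dneg A Γ' h1 =>
      have a1 := hn1 h1
      have b1 := ih _ h1
      rw [List.map_cons] at a1 b1 hΓ ⊢
      rw [subst, subst] at hΓ ⊢
      exact valid_dneg hn a1 hΓ b1

theorem not_refutation (hn : 4 * r + 2 ≤ Q.card) {m : ℕ} {Ax : Fm (Atom L n)}
    {D : Fin m → Fm (Atom L n ⊕ Fin m)} {E : Fin m → Fm (Atom L n)}
    {P : List (List (Fm (Atom L n ⊕ Fin m)))} (hP : IsRefutation Ax D P)
    (hE : ∀ i, E i = subst E (D i)) (hnice : ∀ Γ ∈ P, NiceLine Q r (Γ.map (subst E)))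
    (hAx : NiceLine Q r [Ax] → Valid Q M [Ax]) : False := by
  have h := valid_of_derivation hn hP.1 hE hnice hAx [] hP.2
  let ι : Fin n ↪ M := (Fin.valEmbedding).trans (Infinite.natEmbedding M)
  have h1 := h ι ι.injective
  rw [List.map_nil, val_disj] at h1
  obtain ⟨κ, -, -, A, hA, -⟩ := h1
  exact absurd hA List.not_mem_nil

end

end Pool.Agent.Lib.MP_e81270_lc_Gap
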