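import Pool.Agent.Lib.MP_e81270_lc_Gap.Der
import Pool.Agent.Lib.MP_e81270_lc_Gap.Lower

/-!
# The translations have polynomial size and few images
-/

set_option autoImplicit false
set_option linter.unusedSectionVars false

namespace Pool.Agent.Lib.MP_e81270_lc_Gap

open FirstOrder Equiv Equiv.Perm

section
variable {L : FirstOrder.Language.{0, 0}} {n : ℕ}

/-- the permutations which fix `X` fix the formula -/
def Local (X : Finset (Fin n)) (A : Fm (Atom L n)) : Prop :=
  ∀ π : Perm (Fin n), (∀ x ∈ X, π x = x) → Same (permute π A) A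

lemma Local.mono {X Y : Finset (Fin n)} {A : Fm (Atom L n)} (h : Local X A) (hXY : X ⊆ Y) :
    Local Y A := fun π hπ => h π fun x hx => hπ x (hXY hx)

lemma Local.neg {X : Finset (Fin n)} {A : Fm (Atom L n)} (h : Local X A) :
    Local X (.neg A) := fun π hπ => h π hπ

lemma Local.of_neg {X : Finset (Fin n)} {A : Fm (Atom L n)} (h : Local X (.neg A)) :
    Local X A := fun π hπ => h π hπ

lemma Local.or {X : Finset (Fin n)} {k : ℕ} {f : Fin k → Fm (Atom L n)}
    (h : ∀ i, Local X (f i)) : Local X (.or k f) :=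
  fun π hπ => ⟨fun i => ⟨i, h i π hπ⟩, fun i => ⟨i, h i π hπ⟩⟩

/-- a formula supported by `K` elements has at most `n ^ K` images -/
lemma few_of_local {X : Finset (Fin n)} {A : Fm (Atom L n)} {K : ℕ} (h : Local X A)
    (hX : X.card ≤ K) (hn : 1 ≤ n) : FewImages Finset.univ (n ^ K) A := by
  classical
  have hex : ∀ g : {x // x ∈ X} → Fin n, ∃ π : Perm (Fin n), Function.Injective g →
      ∀ x : {x // x ∈ X}, π x = g x := by
    intro g
    by_cases hg : Function.Injective g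
    · obtain ⟨π, hπ⟩ := Pool.Agent.SymSC.exists_perm_extend X
        (fun x => if hx : x ∈ X then g ⟨x, hx⟩ else x) (by
          intro x hx y hy hxy
          rw [Finset.mem_coe] at hx hy
          simp only [hx, hy, dif_pos] at hxy
          exact congrArg Subtype.val (hg hxy))
      refine ⟨π, fun _ x => ?_⟩
      rw [hπ x x.2]
      simp
    · exact ⟨1, fun h => absurd h hg⟩
  choose π hπ using hex
  refine ⟨Finset.univ.image fun g => permute (π g) A, ?_, ?_⟩
  · refine Finset.card_image_le.trans ?_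
    rw [Finset.card_univ, Fintype.card_fun, Fintype.card_fin, Fintype.card_coe]
    exact Nat.pow_le_pow_right hn hX
  · intro σ _
    let g : {x // x ∈ X} → Fin n := fun x => σ x
    have hg : Function.Injective g := fun x y hxy => Subtype.ext (σ.injective hxy)
    refine ⟨permute (π g) A, Finset.mem_image_of_mem _ (Finset.mem_univ g), ?_⟩
    have h1 : Same (permute ((π g)⁻¹ * σ) A) A := by
      apply h
      intro x hx
      have := hπ g hg ⟨x, hx⟩
      rw [Perm.mul_apply, Perm.inv_eq_iff_eq]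
      exact this.symm
    have h2 := Same.permute (π g) h1
    rwa [← permute_mul, mul_inv_cancel_left] at h2

/-- bounds for size, depth and the supports of the subformulas -/
def SU (K : ℕ) (A : Fm (Atom L n)) : Prop :=
  A.size ≤ n ^ K ∧ A.depth ≤ K ∧ ∀ C, Sub C A → ∃ X : Finset (Fin n), X.card ≤ K ∧ Local X C

lemma SU.mono {K K' : ℕ} {A : Fm (Atom L n)} (h : SU K A) (hK : K ≤ K') (hn : 1 ≤ n) :
    SU K' A := by
  refine ⟨h.1.trans (Nat.pow_le_pow_right hn hK), h.2.1.trans hK, fun C hC => ?_⟩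
  obtain ⟨X, h1, h2⟩ := h.2.2 C hC
  exact ⟨X, h1.trans hK, h2⟩

lemma SU.neg {K : ℕ} {A : Fm (Atom L n)} (h : SU K A) (hn : 2 ≤ n) : SU (K + 1) (.neg A) := by
  refine ⟨?_, ?_, fun C hC => ?_⟩
  · rw [Fm.size, pow_succ]
    have h1 := h.1
    have h2 : 1 ≤ n ^ K := Nat.one_le_pow _ _ (by omega)
    nlinarith
  · rw [Fm.depth]
    exact h.2.1.trans (Nat.le_succ _)
  · cases hC with
    | refl =>
      obtain ⟨X, h1, h2⟩ := h.2.2 A (.refl A)
      exact ⟨X, by omega, h2.neg⟩
    | neg hC =>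
      obtain ⟨X, h1, h2⟩ := h.2.2 C hC
      exact ⟨X, by omega, h2⟩

lemma SU.of_neg {K : ℕ} {A : Fm (Atom L n)} (h : SU K (.neg A)) : SU K A := by
  refine ⟨?_, h.2.1, fun C hC => h.2.2 C (.neg hC)⟩
  have := h.1
  rw [Fm.size] at this
  omega

lemma SU.or {K k : ℕ} {f : Fin k → Fm (Atom L n)} (h : ∀ i, SU K (f i)) (hk : k ≤ n ^ K)
    (hX : ∃ X : Finset (Fin n), X.card ≤ K ∧ Local X (.or k f)) (hn : 2 ≤ n) :
    SU (2 * K + 1) (.or k f) := by
  refine ⟨?_, ?_, fun C hC => ?_⟩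
  · rw [Fm.size]
    have h1 : ∑ i, (f i).size ≤ k * n ^ K := by
      calc ∑ i, (f i).size ≤ ∑ _i : Fin k, n ^ K := Finset.sum_le_sum fun i _ => (h i).1
        _ = k * n ^ K := by rw [Finset.sum_const, Finset.card_univ, Fintype.card_fin, smul_eq_mul]
    have h2 : k * n ^ K ≤ n ^ K * n ^ K := Nat.mul_le_mul_right _ hk
    have h3 : n ^ (2 * K + 1) = n ^ K * n ^ K * n := by rw [two_mul, pow_succ, pow_add]
    have h4 : 1 ≤ n ^ K * n ^ K := Nat.mul_pos (Nat.one_le_pow _ _ (by omega))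
      (Nat.one_le_pow _ _ (by omega))
    rw [h3]
    nlinarith
  · rw [Fm.depth]
    have : (Finset.univ.sup fun i => (f i).depth) ≤ K := Finset.sup_le fun i _ => (h i).2.1
    omega
  · cases hC with
    | refl =>
      obtain ⟨X, h1, h2⟩ := hX
      exact ⟨X, by omega, h2⟩
    | or i hC =>
      obtain ⟨X, h1, h2⟩ := (h i).2.2 C hC
      exact ⟨X, by omega, h2⟩

/-- in addition, the formula is supported by the elements named by `0, ..., K - 1` -/
def U (K : ℕ) (a : ℕ → Fin n) (A : Fm (Atom L n)) : Prop :=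
  SU K A ∧ Local ((Finset.range K).image a) A

lemma U.mono {K K' : ℕ} {a : ℕ → Fin n} {A : Fm (Atom L n)} (h : U K a A) (hK : K ≤ K')
    (hn : 1 ≤ n) : U K' a A :=
  ⟨h.1.mono hK hn, h.2.mono (Finset.image_subset_image (Finset.range_mono hK))⟩

lemma U.neg {K : ℕ} {a : ℕ → Fin n} {A : Fm (Atom L n)} (h : U K a A) (hn : 2 ≤ n) :
    U (K + 1) a (.neg A) :=
  ⟨h.1.neg hn, (h.mono (Nat.le_succ K) (by omega)).2.neg⟩

lemma U.of_neg {K : ℕ} {a : ℕ → Fin n} {A : Fm (Atom L n)} (h : U K a (.neg A)) :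
    U K a A := ⟨h.1.of_neg, h.2.of_neg⟩

/-- a good line: bounded depth, subformulas with bounded support -/
def Good (K : ℕ) (Γ : List (Fm (Atom L n))) : Prop :=
  (∀ A ∈ Γ, A.depth ≤ K) ∧
    ∀ C, Sub C (disj Γ) → ∃ X : Finset (Fin n), X.card ≤ K ∧ Local X C

lemma Good.mono {K K' : ℕ} {Γ : List (Fm (Atom L n))} (h : Good K Γ) (hK : K ≤ K') :
    Good K' Γ := by
  refine ⟨fun A hA => (h.1 A hA).trans hK, fun C hC => ?_⟩
  obtain ⟨X, h1, h2⟩ := h.2 C hC
  exact ⟨X, h1.trans hK, h2⟩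

/-- a line whose formulas have bounds -/
def LU (K : ℕ) (a : ℕ → Fin n) (Γ : List (Fm (Atom L n))) : Prop :=
  Γ.length ≤ K ∧ ∀ A ∈ Γ, U K a A

lemma LU.mono {K K' : ℕ} {a : ℕ → Fin n} {Γ : List (Fm (Atom L n))} (h : LU K a Γ)
    (hK : K ≤ K') (hn : 1 ≤ n) : LU K' a Γ :=
  ⟨h.1.trans hK, fun A hA => (h.2 A hA).mono hK hn⟩

lemma LU.good {K : ℕ} {a : ℕ → Fin n} {Γ : List (Fm (Atom L n))} (h : LU K a Γ) :
    Good K Γ := by
  refine ⟨fun A hA => (h.2 A hA).1.2.1, fun C hC => ?_⟩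
  cases hC with
  | refl =>
    refine ⟨(Finset.range K).image a, ?_, ?_⟩
    · exact Finset.card_image_le.trans (by rw [Finset.card_range])
    · exact Local.or fun i => (h.2 _ (Γ.get_mem i)).2
  | or i hC => exact (h.2 _ (Γ.get_mem i)).1.2.2 C hC

lemma LU.lsize_le {K : ℕ} {a : ℕ → Fin n} {Γ : List (Fm (Atom L n))} (h : LU K a Γ)
    (hn : 2 ≤ n) : lsize Γ ≤ n ^ (2 * K + 1) := by
  have h1 : (Γ.map Fm.size).sum ≤ Γ.length * n ^ K := by
    have : ∀ (Δ : List (Fm (Atom L n))), (∀ B ∈ Δ, B.size ≤ n ^ K) →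
        (Δ.map Fm.size).sum ≤ Δ.length * n ^ K := by
      intro Δ
      induction Δ with
      | nil => intro _; simp
      | cons A Δ ih =>
        intro hΔ
        rw [List.map_cons, List.sum_cons, List.length_cons, Nat.add_mul, one_mul]
        have := ih fun B hB => hΔ B (List.mem_cons_of_mem _ hB)
        have := hΔ A List.mem_cons_self
        omega
    exact this Γ fun A hA => (h.2 A hA).1.1
  have h2 : Γ.length ≤ n ^ K :=
    h.1.trans ((Nat.lt_two_pow_self).le.trans (Nat.pow_le_pow_left hn K))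
  have h3 : n ^ (2 * K + 1) = n ^ K * n ^ K * n := by rw [two_mul, pow_succ, pow_add]
  have h4 : 1 ≤ n ^ K * n ^ K := Nat.mul_pos (Nat.one_le_pow _ _ (by omega))
    (Nat.one_le_pow _ _ (by omega))
  have h5 : Γ.length * n ^ K ≤ n ^ K * n ^ K := Nat.mul_le_mul_right _ h2
  rw [lsize, h3]
  nlinarith

end

section
variable {L : FirstOrder.Language.{0, 0}}

/-- a family of formulas with uniform bounds -/
def EU (F : (n : ℕ) → (ℕ → Fin n) → Fm (Atom L n)) : Prop :=
  ∃ K, ∀ n, 2 ≤ n → ∀ a, U K a (F n a)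

/-- a family of lines with uniform bounds -/
def EL (F : (n : ℕ) → (ℕ → Fin n) → List (Fm (Atom L n))) : Prop :=
  ∃ K, ∀ n, 2 ≤ n → ∀ a, LU K a (F n a)

lemma EU.neg {F : (n : ℕ) → (ℕ → Fin n) → Fm (Atom L n)} (h : EU F) :
    EU fun n a => .neg (F n a) := by
  obtain ⟨K, h⟩ := h
  exact ⟨K + 1, fun n hn a => (h n hn a).neg hn⟩

lemma EU.of_neg {F : (n : ℕ) → (ℕ → Fin n) → Fm (Atom L n)}
    (h : EU fun n a => .neg (F n a)) : EU F := by
  obtain ⟨K, h⟩ := h
  exact ⟨K, fun n hn a => (h n hn a).of_neg⟩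

lemma EL.nil : EL (L := L) fun _ _ => [] :=
  ⟨0, fun _ _ _ => ⟨le_refl _, fun A hA => absurd hA List.not_mem_nil⟩⟩

lemma EL.cons {F : (n : ℕ) → (ℕ → Fin n) → Fm (Atom L n)}
    {G : (n : ℕ) → (ℕ → Fin n) → List (Fm (Atom L n))} (h : EU F) (h' : EL G) :
    EL fun n a => F n a :: G n a := by
  obtain ⟨K, h⟩ := h
  obtain ⟨K', h'⟩ := h'
  refine ⟨K + K' + 1, fun n hn a => ⟨?_, ?_⟩⟩
  · rw [List.length_cons]
    have := (h' n hn a).1
    omega
  · intro A hA
    rcases List.mem_cons.1 hA with rfl | hA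
    · exact (h n hn a).mono (by omega) (by omega)
    · exact ((h' n hn a).2 A hA).mono (by omega) (by omega)

end

section
variable {L : FirstOrder.Language.{0, 0}} [L.IsRelational]

lemma local_trans {n k : ℕ} (φ : L.BoundedFormula Empty k) (v : Fin k → ℕ) {K : ℕ}
    (hv : ∀ i, v i < K) (a : ℕ → Fin n) :
    Local ((Finset.range K).image a) (trans φ (a ∘ v)) := by
  intro π hπ
  have h := permute_trans φ (a ∘ v) π
  have : π ∘ (a ∘ v) = a ∘ v := funext fun i =>
    hπ _ (Finset.mem_image_of_mem a (Finset.mem_range.2 (hv i)))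
  rwa [this] at h

lemma exists_bound {k : ℕ} (v : Fin k → ℕ) : ∃ K, ∀ i, v i < K :=
  ⟨Finset.univ.sup v + 1, fun i => Nat.lt_succ_of_le (Finset.le_sup (Finset.mem_univ i))⟩

lemma update_snoc {n k : ℕ} (a : ℕ → Fin n) (v : Fin k → ℕ) {m : ℕ} (hm : ∀ i, v i ≠ m)
    (u : Fin n) : (Function.update a m u) ∘ (Fin.snoc v m : Fin (k + 1) → ℕ) =
      Fin.snoc (a ∘ v) u := by
  funext i
  refine Fin.lastCases ?_ (fun j => ?_) i
  · simp
  · simp [Function.update_of_ne (hm j)]

lemma comp_snoc {n k : ℕ} (a : ℕ → Fin n) (v : Fin k → ℕ) (m : ℕ) :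
    a ∘ (Fin.snoc v m : Fin (k + 1) → ℕ) = Fin.snoc (a ∘ v) (a m) := by
  funext i
  refine Fin.lastCases ?_ (fun j => ?_) i
  · simp
  · simp

lemma SU_or0 {n : ℕ} (hn : 2 ≤ n) (f : Fin 0 → Fm (Atom L n)) : SU 1 (Fm.or 0 f) := by
  refine ⟨?_, ?_, fun C hC => ?_⟩
  · rw [Fm.size]
    simp
    omega
  · rw [Fm.depth]
    simp
  · cases hC with
    | refl => exact ⟨∅, by simp, Local.or fun i => i.elim0⟩
    | or i _ => exact i.elim0

theorem eu_trans {k : ℕ} (φ : L.BoundedFormula Empty k) :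
    ∀ v : Fin k → ℕ, EU fun n a => trans φ (a ∘ v) := by
  induction φ with
  | falsum =>
    intro v
    exact ⟨1, fun n hn a => ⟨SU_or0 hn _, Local.or fun i => i.elim0⟩⟩
  | equal s t =>
    intro v
    refine ⟨2, fun n hn a => ?_⟩
    show U 2 a (trans (.equal s t) (a ∘ v))
    rw [trans]
    split_ifs
    · exact ⟨(SU_or0 hn _).neg hn, (Local.or fun i => i.elim0).neg⟩
    · exact ⟨(SU_or0 hn _).mono (by norm_num) (by omega), Local.or fun i => i.elim0⟩
  | rel R ts =>
    intro v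
    obtain ⟨K, hK⟩ := exists_bound v
    have hl : ∀ n (a : ℕ → Fin n), Local ((Finset.range K).image a)
        (trans (.rel R ts) (a ∘ v)) := fun n a => local_trans (.rel R ts) v hK a
    refine ⟨K + 1, fun n hn a => ⟨⟨?_, ?_, fun C hC => ?_⟩,
      (hl n a).mono (Finset.image_subset_image (Finset.range_mono (Nat.le_succ K)))⟩⟩
    · show (trans (.rel R ts) (a ∘ v)).size ≤ _
      rw [trans, Fm.size]
      exact Nat.one_le_pow _ _ (by omega)
    · show (trans (.rel R ts) (a ∘ v)).depth ≤ _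
      rw [trans, Fm.depth]
      exact Nat.zero_le _
    · have hl := hl n a
      have hC : Sub C (trans (.rel R ts) (a ∘ v)) := hC
      rw [trans] at hC hl
      cases hC with
      | refl =>
        exact ⟨_, Finset.card_image_le.trans (by rw [Finset.card_range]; omega), hl⟩
  | imp φ ψ h1 h2 =>
    intro v
    obtain ⟨K, hK⟩ := exists_bound v
    obtain ⟨K1, h1⟩ := h1 v
    obtain ⟨K2, h2⟩ := h2 v
    have hl : ∀ n (a : ℕ → Fin n), Local ((Finset.range K).image a)
        (trans (.imp φ ψ) (a ∘ v)) := fun n a => local_trans (.imp φ ψ) v hK a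
    obtain ⟨K3, hK3⟩ : ∃ K3, K3 = K + K1 + K2 + 1 := ⟨_, rfl⟩
    refine ⟨2 * K3 + 1, fun n hn a => ⟨?_, (hl n a).mono
      (Finset.image_subset_image (Finset.range_mono (by omega)))⟩⟩
    have hl := hl n a
    show SU _ (trans (.imp φ ψ) (a ∘ v))
    rw [trans] at hl ⊢
    apply SU.or
    · intro i
      fin_cases i
      · exact ((h1 n hn a).1.neg hn).mono (by omega) (by omega)
      · exact (h2 n hn a).1.mono (by omega) (by omega)
    · calc 2 ≤ n ^ 1 := by rw [pow_one]; exact hn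
        _ ≤ n ^ K3 := Nat.pow_le_pow_right (by omega) (by omega)
    · exact ⟨_, Finset.card_image_le.trans (by rw [Finset.card_range]; omega), hl⟩
    · exact hn
  | @all k φ h =>
    intro v
    obtain ⟨K, hK⟩ := exists_bound v
    obtain ⟨K1, h1⟩ := h (Fin.snoc v K)
    have hl : ∀ n (a : ℕ → Fin n), Local ((Finset.range K).image a)
        (trans (.all φ) (a ∘ v)) := fun n a => local_trans (.all φ) v hK a
    obtain ⟨K3, hK3⟩ : ∃ K3, K3 = K + K1 + 1 := ⟨_, rfl⟩
    refine ⟨2 * K3 + 2, fun n hn a => ⟨?_, (hl n a).mono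
      (Finset.image_subset_image (Finset.range_mono (by omega)))⟩⟩
    have hl := hl n a
    show SU _ (trans (.all φ) (a ∘ v))
    rw [trans] at hl ⊢
    apply SU.neg _ hn
    apply SU.or
    · intro u
      have := h1 n hn (Function.update a K u)
      beta_reduce at this
      rw [update_snoc a v (fun i => (hK i).ne) u] at this
      exact (this.1.neg hn).mono (by omega) (by omega)
    · calc n = n ^ 1 := (pow_one n).symm
        _ ≤ n ^ K3 := Nat.pow_le_pow_right (by omega) (by omega)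
    · exact ⟨_, Finset.card_image_le.trans (by rw [Finset.card_range]; omega), hl.of_neg⟩
    · exact hn

end

end Pool.Agent.Lib.MP_e81270_lc_Gap
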