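import Pool.Agent.Lib.MP_e81270_lc_Gap.Model

/-!
# Short refutations of sentences without infinite models
-/

set_option autoImplicit false

namespace Pool.Agent.Lib.MP_e81270_lc_Gap

open FirstOrder Equiv Equiv.Perm

/-- images of lines as formulas -/
lemma same_disj_lift {L : FirstOrder.Language.{0, 0}} {n : ℕ} {π : Perm (Fin n)}
    {τ : Perm (Fin 0)} {Γ Δ : List (Fm (Atom L n))} (h : LS π Γ Δ) :
    Same (move π τ (disj (lift Γ))) (disj (lift Δ)) := by
  have key : ∀ A B : Fm (Atom L n), Same (permute π A) B →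
      Same (move π τ (A.rename .inl)) (B.rename .inl) := by
    intro A B hs
    have h1 := hs.rename (Sum.inl : Atom L n → Atom L n ⊕ Fin 0)
    rw [permute, Fm.rename_rename] at h1
    rw [move, Fm.rename_rename]
    exact h1
  constructor
  · intro i
    obtain ⟨A, hA, he⟩ := List.mem_map.1 ((lift Γ).get_mem i)
    obtain ⟨B, hB, hs⟩ := h.1 A hA
    have h1 : B.rename .inl ∈ lift Δ := List.mem_map_of_mem hB
    obtain ⟨j, hj⟩ := List.mem_iff_get.1 h1
    refine ⟨j, ?_⟩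
    show Same (move π τ ((lift Γ).get i)) ((lift Δ).get j)
    rw [← he, hj]
    exact key A B hs
  · intro j
    obtain ⟨B, hB, he⟩ := List.mem_map.1 ((lift Δ).get_mem j)
    obtain ⟨A, hA, hs⟩ := h.2 B hB
    have h1 : A.rename .inl ∈ lift Γ := List.mem_map_of_mem hA
    obtain ⟨i, hi⟩ := List.mem_iff_get.1 h1
    refine ⟨i, ?_⟩
    show Same (move π τ ((lift Γ).get i)) ((lift Δ).get j)
    rw [← he, hi]
    exact key A B hs

/-- **Upper bound.** A sentence without infinite models has refutations of polynomial size and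
bounded depth, without extension variables, which are invariant under all permutations of the
elements. -/
theorem upper {L : FirstOrder.Language.{0, 0}} [L.IsRelational] [Countable L.Symbols]
    (Ψ : L.Sentence) (hΨ : ¬ ∃ (M : Type) (_ : L.Structure M), Infinite M ∧ M ⊨ Ψ) :
    ∃ K : ℕ, ∀ n ≥ K, ∃ P : List (List (Fm (Atom L n ⊕ Fin 0))),
      IsRefutation (translation Ψ n) Fin.elim0 P ∧ totalSize P ≤ n ^ K ∧
      (∀ Γ ∈ P, ∀ A ∈ Γ, A.depth ≤ K) ∧ Invariant Finset.univ Fin.elim0 P := by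
  have hR : Ref Ψ 0 [] := by
    by_contra hcon
    obtain ⟨S, hS⟩ := exists_model Ψ hcon
    exact hΨ ⟨ℕ, S, inferInstance, hS⟩
  obtain ⟨K, F, hK, hF⟩ := hR
  refine ⟨K + 2, fun n hn => ?_⟩
  have ha : Set.InjOn (fun _ => ⟨0, by omega⟩ : ℕ → Fin n) (Set.Iio 0) :=
    fun x hx => absurd (Set.mem_Iio.1 hx) (Nat.not_lt_zero x)
  obtain ⟨h1, h2⟩ := hK n (by omega) (by omega)
  obtain ⟨h1, h3, h4⟩ := h1 _ ha
  have h5 := hF n (by omega) (by omega) _ ha
  refine ⟨(F n fun _ => ⟨0, by omega⟩).map lift, ⟨h1, ?_⟩, ?_, ?_, ?_⟩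
  · exact List.mem_map_of_mem (f := lift) h5
  · rw [totalSize_eq, List.map_map]
    have : (F n fun _ => ⟨0, by omega⟩).map (lsize ∘ lift) =
        (F n fun _ => ⟨0, by omega⟩).map lsize :=
      List.map_congr_left fun Γ _ => lsize_lift Γ
    rw [this]
    exact h3.trans (Nat.pow_le_pow_right (by omega) (by omega))
  · intro Γ hΓ A hA
    obtain ⟨Δ, hΔ, rfl⟩ := List.mem_map.1 hΓ
    obtain ⟨B, hB, rfl⟩ := List.mem_map.1 hA
    rw [depth_rename]
    exact ((h4 Δ hΔ).1 B hB).trans (by omega)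
  · intro π hπ
    refine ⟨1, fun i => i.elim0, fun Γ hΓ => ?_⟩
    obtain ⟨Δ, hΔ, rfl⟩ := List.mem_map.1 hΓ
    obtain ⟨Δ', hΔ', hs⟩ := h2 _ (fun _ => ⟨0, by omega⟩) π
      (fun i hi => absurd hi (Nat.not_lt_zero i)) Δ hΔ
    exact ⟨lift Δ', List.mem_map_of_mem hΔ', same_disj_lift hs⟩

end Pool.Agent.Lib.MP_e81270_lc_Gap
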